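import Pool.Agent.Lib.H56F.S4

/-!
# S5 (M): a linear family of skew forms with vanishing Pfaffians

Choose `w0 = ∑ r, c r • w r` with the maximal rank (`Matrix.rank` of `w0`, or `finrank` of the range of `z ↦ (i ↦ ∑ j, w0 i j * z j)`; bounded by `2 n`). `S4` gives independent `x`, `y` in the kernel of `w0`. Claim `bil (w r) x y = 0` for all `r`:
otherwise, with `η = w r`: take vectors `v_1 .. v_ρ` with `w0 v_i` independent (`ρ` = the rank). `{w0 v_i} ∪ {η y}` is independent: `x` annihilates the `w0 v_i` (`bil w0 x v = 0`) and `x · η y = bil η x y ≠ 0`. Independence is an open condition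
(`isOpen_setOf_linearIndependent`), so for small `ε ≠ 0`: `{(w0 + ε η) v_i} ∪ {η y}` is independent, and `(w0 + ε η) y = ε η y` (`w0 y = 0`): the rank of `w0 + ε η` is at least `ρ + 1`. Contradiction.
-/

set_option autoImplicit false

open Finset

namespace H56F

open Pool.Agent.H69Hopf
open H56E

/-- the linear combination of the forms, as a matrix -/
private def s5W {N : ℕ} {ι : Type} [Fintype ι] (w : ι → Fin N → Fin N → ℝ) (c : ι → ℝ) : Matrix (Fin N) (Fin N) ℝ :=
  Matrix.of fun i j => ∑ r, c r * w r i j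

private theorem s5_bil {N : ℕ} (A : Matrix (Fin N) (Fin N) ℝ) (x y : Fin N → ℝ) :
    bil (fun i j => A i j) x y = x ⬝ᵥ (A.mulVec y) := by
  unfold bil dotProduct Matrix.mulVec dotProduct
  refine sum_congr rfl fun i _ => ?_
  rw [mul_sum]
  exact sum_congr rfl fun j _ => by ring

private theorem s5_max {N : ℕ} {ι : Type} [Fintype ι] (w : ι → Fin N → Fin N → ℝ) :
    ∃ c0 : ι → ℝ, ∀ c : ι → ℝ, Module.finrank ℝ (LinearMap.range (s5W w c).mulVecLin) ≤
      Module.finrank ℝ (LinearMap.range (s5W w c0).mulVecLin) := by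
  have hb : BddAbove (Set.range fun c : ι → ℝ => Module.finrank ℝ (LinearMap.range (s5W w c).mulVecLin)) := by
    refine ⟨N, ?_⟩
    rintro _ ⟨c, rfl⟩
    have h := (LinearMap.range (s5W w c).mulVecLin).finrank_le
    simpa using h
  obtain ⟨c0, h0⟩ := Nat.sSup_mem (Set.range_nonempty _) hb
  exact ⟨c0, fun c => (le_csSup hb ⟨c, rfl⟩).trans (le_of_eq h0.symm)⟩

theorem S5 {n : ℕ} (hn : 1 ≤ n) {ι : Type} [Fintype ι] {w : ι → Fin (2 * n) → Fin (2 * n) → ℝ} (hw : ∀ r, Skw (w r))
    (h0 : ∀ c : ι → ℝ, hpf (fun i j => ∑ r, c r * w r i j) = 0) :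
    ∃ x y : Fin (2 * n) → ℝ, LinearIndependent ℝ ![x, y] ∧ ∀ r, bil (w r) x y = 0 := by
  classical
  obtain ⟨c0, hmax⟩ := s5_max w
  have hskw : Skw fun i j => ∑ r, c0 r * w r i j := by
    intro i j
    show ∑ r, c0 r * w r i j = - ∑ r, c0 r * w r j i
    rw [← sum_neg_distrib]
    exact sum_congr rfl fun r _ => by rw [hw r i j]; ring
  obtain ⟨x, y, hxy, hx, hy⟩ := S4 hn hskw (h0 c0)
  refine ⟨x, y, hxy, fun r => ?_⟩
  by_contra hne
  have hx' : ∀ z, x ⬝ᵥ ((s5W w c0).mulVec z) = 0 := fun z => by rw [← s5_bil]; exact hx z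
  have hy' : (s5W w c0).mulVec y = 0 := by
    funext i
    have h1 : (s5W w c0).mulVec y i = - bil (fun i j => ∑ r, c0 r * w r i j) y (Pi.single i 1) := by
      unfold bil Matrix.mulVec dotProduct
      rw [← sum_neg_distrib]
      refine sum_congr rfl fun j _ => ?_
      have h2 : ∑ k, (∑ r, c0 r * w r j k) * y j * (Pi.single i (1 : ℝ) : Fin (2 * n) → ℝ) k = (∑ r, c0 r * w r j i) * y j := by
        rw [sum_eq_single i]
        · simp
        · intro b _ hb
          rw [Pi.single_eq_of_ne hb, mul_zero]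
        · intro h
          exact absurd (mem_univ _) h
      rw [h2]
      have h3 := hskw i j
      show (∑ r, c0 r * w r i j) * y j = _
      rw [show (∑ r, c0 r * w r i j) = - ∑ r, c0 r * w r j i from h3]
      ring
    rw [h1, hy, neg_zero]
    rfl
  -- the vectors v
  set R0 := LinearMap.range (s5W w c0).mulVecLin with hR0
  set ρ := Module.finrank ℝ R0 with hρ
  have b : Module.Basis (Fin ρ) ℝ R0 := Module.finBasis ℝ R0
  have hv : ∀ i : Fin ρ, ∃ z : Fin (2 * n) → ℝ, (s5W w c0).mulVec z = (b i : Fin (2 * n) → ℝ) := by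
    intro i
    obtain ⟨z, hz⟩ := (b i).2
    exact ⟨z, hz⟩
  choose v hv using hv
  have hind : LinearIndependent ℝ fun i : Fin ρ => (s5W w c0).mulVec (v i) := by
    have h1 : (fun i : Fin ρ => (s5W w c0).mulVec (v i)) = fun i : Fin ρ => R0.subtype (b i) := by
      funext i
      exact hv i
    rw [h1]
    exact b.linearIndependent.map' _ (Submodule.ker_subtype _)
  set η : Matrix (Fin (2 * n)) (Fin (2 * n)) ℝ := Matrix.of (w r) with hη
  have hxη : x ⬝ᵥ (η.mulVec y) ≠ 0 := by
    rw [← s5_bil]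
    exact hne
  -- independence at zero
  let F : ℝ → Fin (ρ + 1) → (Fin (2 * n) → ℝ) := fun ε => Fin.cons (η.mulVec y) fun i => (s5W w c0).mulVec (v i) + ε • η.mulVec (v i)
  have hF0 : LinearIndependent ℝ (F 0) := by
    refine linearIndependent_finCons.2 ⟨?_, ?_⟩
    · simpa using hind
    · intro hmem
      let φ : (Fin (2 * n) → ℝ) →ₗ[ℝ] ℝ := dotProductBilin ℝ ℝ x
      have hφ : ∀ z, φ z = x ⬝ᵥ z := fun z => rfl
      have h1 : Submodule.span ℝ (Set.range fun i : Fin ρ => (s5W w c0).mulVec (v i) + (0 : ℝ) • η.mulVec (v i)) ≤ LinearMap.ker φ := by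
        rw [Submodule.span_le]
        rintro _ ⟨i, rfl⟩
        show x ⬝ᵥ ((s5W w c0).mulVec (v i) + (0 : ℝ) • η.mulVec (v i)) = 0
        rw [zero_smul, add_zero]
        exact hx' _
      have h2 := h1 hmem
      rw [LinearMap.mem_ker, hφ] at h2
      exact hxη h2
  have hFc : Continuous F := by
    refine continuous_pi fun i => ?_
    refine Fin.cases ?_ (fun i => ?_) i
    · exact continuous_const
    · show Continuous fun ε : ℝ => (s5W w c0).mulVec (v i) + ε • η.mulVec (v i)
      fun_prop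
  have hopen : IsOpen (F ⁻¹' {u | LinearIndependent ℝ u}) := (isOpen_setOf_linearIndependent).preimage hFc
  obtain ⟨δ, hδ, hball⟩ := Metric.isOpen_iff.1 hopen 0 hF0
  have hε : (δ / 2) ≠ 0 := by positivity
  have hind2 : LinearIndependent ℝ (F (δ / 2)) := by
    refine hball ?_
    rw [Metric.mem_ball, dist_zero_right, Real.norm_eq_abs, abs_of_pos (by positivity)]
    linarith
  set c1 : ι → ℝ := fun s => c0 s + (if s = r then δ / 2 else 0) with hc1
  have hW1 : s5W w c1 = s5W w c0 + (δ / 2) • η := by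
    ext i j
    simp [s5W, hc1, hη, add_mul, sum_add_distrib, ite_mul]
  have hle : Submodule.span ℝ (Set.range (F (δ / 2))) ≤ LinearMap.range (s5W w c1).mulVecLin := by
    rw [Submodule.span_le]
    rintro _ ⟨i, rfl⟩
    refine Fin.cases ?_ (fun i => ?_) i
    · refine ⟨(δ / 2)⁻¹ • y, ?_⟩
      show (s5W w c1).mulVec ((δ / 2)⁻¹ • y) = η.mulVec y
      rw [hW1, Matrix.mulVec_smul, Matrix.add_mulVec, hy', zero_add, Matrix.smul_mulVec, smul_smul, inv_mul_cancel₀ hε, one_smul]
    · refine ⟨v i, ?_⟩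
      show (s5W w c1).mulVec (v i) = (s5W w c0).mulVec (v i) + (δ / 2) • η.mulVec (v i)
      rw [hW1, Matrix.add_mulVec, Matrix.smul_mulVec]
  have h1 := Submodule.finrank_mono hle
  rw [finrank_span_eq_card hind2, Fintype.card_fin] at h1
  have h2 := hmax c1
  omega

end H56F
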