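import Pool.Agent.Lib.H56F.S6

/-!
# S7 (M): a uniform lower bound

The set of the `Y` in question is compact in `Arr (2 * n) = Fin _ → Fin _ → Fin _ → Fin _ → ℝ` (closed: all conditions are closed conditions on finitely many continuous functions of `Y`; bounded), `gaussBonnet n` is continuous (a polynomial:
`unfold gaussBonnet; fun_prop` or `continuous_finset_sum` ..) and positive on it (`S6`; `area2 v w > 0` for independent `v`, `w`, see `Lib/H30K`, `Lib/H69/Hopf`). If the set is empty take `ε = 1`.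
-/

set_option autoImplicit false

open Finset

namespace H56F

open Pool.Agent.H69Hopf
open H56E

theorem s7_area2_pos {N : ℕ} {v w : Fin N → ℝ} (h : LinearIndependent ℝ ![v, w]) : 0 < area2 v w := by
  rw [LinearIndependent.pair_iff] at h
  obtain ⟨a, ha⟩ : ∃ a, a = ∑ i, v i ^ 2 := ⟨_, rfl⟩
  obtain ⟨b, hb⟩ : ∃ b, b = ∑ i, w i ^ 2 := ⟨_, rfl⟩
  obtain ⟨e, he⟩ : ∃ e, e = ∑ i, v i * w i := ⟨_, rfl⟩
  have ha0 : 0 ≤ a := by rw [ha]; exact Finset.sum_nonneg fun i _ => sq_nonneg _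
  have ha1 : a ≠ 0 := by
    intro h0
    rw [ha, Finset.sum_eq_zero_iff_of_nonneg fun i _ => sq_nonneg _] at h0
    have h1 : v = 0 := funext fun i => by simpa using h0 i (Finset.mem_univ i)
    have h2 := (h 1 0 (by rw [h1]; simp)).1
    exact one_ne_zero h2
  have ha2 : 0 < a := lt_of_le_of_ne ha0 (Ne.symm ha1)
  have hu : ∑ i, (a * w i - e * v i) ^ 2 = a * (a * b - e ^ 2) := by
    have h1 : ∀ i, (a * w i - e * v i) ^ 2 = a ^ 2 * w i ^ 2 - 2 * a * e * (v i * w i) + e ^ 2 * v i ^ 2 := fun i => by ring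
    rw [Finset.sum_congr rfl fun i _ => h1 i, Finset.sum_add_distrib, Finset.sum_sub_distrib, ← Finset.mul_sum, ← Finset.mul_sum,
      ← Finset.mul_sum, ← ha, ← hb, ← he]
    ring
  have hne : ∑ i, (a * w i - e * v i) ^ 2 ≠ 0 := by
    intro h0
    rw [Finset.sum_eq_zero_iff_of_nonneg fun i _ => sq_nonneg _] at h0
    have h1 : (-e) • v + a • w = 0 := funext fun i => by
      have h2 := h0 i (Finset.mem_univ i)
      have h3 : a * w i - e * v i = 0 := by simpa using h2
      show -e * v i + a * w i = 0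
      linarith
    exact ha1 (h _ _ h1).2
  have hpos : 0 < a * (a * b - e ^ 2) := by
    rw [← hu]
    exact lt_of_le_of_ne (Finset.sum_nonneg fun i _ => sq_nonneg _) (Ne.symm hne)
  have h3 := (mul_pos_iff_of_pos_left ha2).1 hpos
  unfold area2
  rw [← ha, ← hb, ← he]
  exact h3

theorem s7_cont {N : ℕ} (i j k l : Fin N) : Continuous fun Y : Arr N => Y i j k l :=
  (continuous_apply l).comp ((continuous_apply k).comp ((continuous_apply j).comp (continuous_apply i)))

theorem s7_gb (n : ℕ) : Continuous fun Y : Arr (2 * n) => gaussBonnet n Y := by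
  unfold gaussBonnet
  exact continuous_finsetSum _ fun σ _ => continuous_finsetSum _ fun τ _ =>
    continuous_const.mul (continuous_finsetProd _ fun i _ => s7_cont _ _ _ _)

theorem s7_ev {N : ℕ} (x y z w : Fin N → ℝ) : Continuous fun Y : Arr N => ev Y x y z w := by
  unfold ev
  exact continuous_finsetSum _ fun i _ => continuous_finsetSum _ fun j _ => continuous_finsetSum _ fun k _ =>
    continuous_finsetSum _ fun l _ => ((((s7_cont i j k l).mul continuous_const).mul continuous_const).mul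
      continuous_const).mul continuous_const

theorem s7_closed (N : ℕ) (c C : ℝ) : IsClosed {Y : Arr N | IsAlgCurv Y ∧ PsdOp Y ∧
    (∀ v w, c * area2 v w ≤ ev Y v w v w) ∧ ∀ i j k l, |Y i j k l| ≤ C} := by
  have h1 : {Y : Arr N | IsAlgCurv Y ∧ PsdOp Y ∧ (∀ v w, c * area2 v w ≤ ev Y v w v w) ∧ ∀ i j k l, |Y i j k l| ≤ C} =
      {Y : Arr N | ∀ i j k l, Y i j k l = - Y j i k l} ∩ {Y : Arr N | ∀ i j k l, Y i j k l = Y k l i j} ∩
      {Y : Arr N | ∀ i j k l, Y i j k l + Y j k i l + Y k i j l = 0} ∩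
      {Y : Arr N | ∀ W : Fin N → Fin N → ℝ, 0 ≤ ∑ i, ∑ j, ∑ p, ∑ q, Y i j p q * (W i j * W p q)} ∩
      {Y : Arr N | ∀ v w, c * area2 v w ≤ ev Y v w v w} ∩ {Y : Arr N | ∀ i j k l, |Y i j k l| ≤ C} := by
    ext Y
    constructor
    · rintro ⟨⟨h1, h2, h3⟩, h4, h5, h6⟩
      exact ⟨⟨⟨⟨⟨h1, h2⟩, h3⟩, h4⟩, h5⟩, h6⟩
    · rintro ⟨⟨⟨⟨⟨h1, h2⟩, h3⟩, h4⟩, h5⟩, h6⟩
      exact ⟨⟨h1, h2, h3⟩, h4, h5, h6⟩
  rw [h1]
  refine (((((IsClosed.inter ?_ ?_).inter ?_).inter ?_).inter ?_).inter ?_)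
  · simp only [Set.ofPred_forall]
    exact isClosed_iInter fun i => isClosed_iInter fun j => isClosed_iInter fun k => isClosed_iInter fun l =>
      isClosed_eq (s7_cont _ _ _ _) (s7_cont _ _ _ _).neg
  · simp only [Set.ofPred_forall]
    exact isClosed_iInter fun i => isClosed_iInter fun j => isClosed_iInter fun k => isClosed_iInter fun l =>
      isClosed_eq (s7_cont _ _ _ _) (s7_cont _ _ _ _)
  · simp only [Set.ofPred_forall]
    exact isClosed_iInter fun i => isClosed_iInter fun j => isClosed_iInter fun k => isClosed_iInter fun l =>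
      isClosed_eq (((s7_cont _ _ _ _).add (s7_cont _ _ _ _)).add (s7_cont _ _ _ _)) continuous_const
  · simp only [Set.ofPred_forall]
    exact isClosed_iInter fun W => isClosed_le continuous_const (continuous_finsetSum _ fun i _ => continuous_finsetSum _ fun j _ =>
      continuous_finsetSum _ fun k _ => continuous_finsetSum _ fun l _ => (s7_cont i j k l).mul continuous_const)
  · simp only [Set.ofPred_forall]
    exact isClosed_iInter fun v => isClosed_iInter fun w => isClosed_le continuous_const (s7_ev _ _ _ _)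
  · simp only [Set.ofPred_forall]
    exact isClosed_iInter fun i => isClosed_iInter fun j => isClosed_iInter fun k => isClosed_iInter fun l =>
      isClosed_le (s7_cont _ _ _ _).abs continuous_const

theorem s7_compact (N : ℕ) (c C : ℝ) : IsCompact {Y : Arr N | IsAlgCurv Y ∧ PsdOp Y ∧
    (∀ v w, c * area2 v w ≤ ev Y v w v w) ∧ ∀ i j k l, |Y i j k l| ≤ C} := by
  refine Metric.isCompact_of_isClosed_isBounded (s7_closed N c C) ?_
  refine (Metric.isBounded_closedBall (x := (0 : Arr N)) (r := max C 0)).subset fun Y hY => ?_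
  rw [Metric.mem_closedBall, dist_zero_right]
  have h0 : (0 : ℝ) ≤ max C 0 := le_max_right _ _
  refine (pi_norm_le_iff_of_nonneg h0).2 fun i => (pi_norm_le_iff_of_nonneg h0).2 fun j =>
    (pi_norm_le_iff_of_nonneg h0).2 fun k => (pi_norm_le_iff_of_nonneg h0).2 fun l => ?_
  rw [Real.norm_eq_abs]
  exact (hY.2.2.2 i j k l).trans (le_max_left _ _)

theorem S7 (n : ℕ) {c : ℝ} (hc : 0 < c) (C : ℝ) :
    ∃ ε : ℝ, 0 < ε ∧ ∀ Y : Arr (2 * n), IsAlgCurv Y → PsdOp Y → (∀ v w, c * area2 v w ≤ ev Y v w v w) → (∀ i j k l, |Y i j k l| ≤ C) → ε ≤ gaussBonnet n Y := by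
  by_cases hne : {Y : Arr (2 * n) | IsAlgCurv Y ∧ PsdOp Y ∧ (∀ v w, c * area2 v w ≤ ev Y v w v w) ∧
      ∀ i j k l, |Y i j k l| ≤ C}.Nonempty
  · obtain ⟨Y0, hY0, hmin⟩ := (s7_compact (2 * n) c C).exists_isMinOn hne (s7_gb n).continuousOn
    refine ⟨gaussBonnet n Y0, ?_, fun Y h1 h2 h3 h4 => hmin ⟨h1, h2, h3, h4⟩⟩
    exact S6 hY0.1 hY0.2.1 fun v w hvw => lt_of_lt_of_le (mul_pos hc (s7_area2_pos hvw)) (hY0.2.2.1 v w)
  · exact ⟨1, one_pos, fun Y h1 h2 h3 h4 => absurd ⟨Y, h1, h2, h3, h4⟩ hne⟩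

end H56F
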