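import Pool.Agent.Lib.H56F.S0

/-!
# S8 (M): the decomposition relative to `yr`

As `H56E.A11` (`Lib/H56E/A11.lean`; copy its proof, or use its parts). `- R - yr = if (all indices in one cluster with o) then 0 else xr c R = ∑ b ∈ image t with ¬ o b, blk t b (xr c R) + ∑ a, ∑ b, kna a (Q a b)`.
`S8_y`: `yr = ∑ b ∈ image t with o b, blk t b (- R) + ∑ i, ∑ j with ¬ (t i = t j ∧ o (t i)), sqf (ei i) (√(c / 2) • ei j)` (as `H56E.A8_mem`, `Lib/H56E/A8.lean`: for such `i`, `j` the squares add up to `c idA` on the index quadruples not in one `o`-cluster: `idA i j k l ≠ 0` only if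
`{i, j} = {k, l}`).
-/

set_option autoImplicit false

open Finset

namespace H56F

open Pool.Agent.H69Hopf
open H56E
open H30K (KB Cyc)

theorem S8_sum {N : ℕ} (o : ℕ → Prop) [DecidablePred o] (t : Fin N → ℕ) (Y : ℕ → Arr N) (i j k l : Fin N) :
    (∑ b ∈ ((Finset.univ : Finset (Fin N)).image t).filter o, H56E.blk t b (Y b) i j k l) =
      if (t i = t j ∧ t j = t k ∧ t k = t l) ∧ o (t i) then Y (t i) i j k l else 0 := by
  classical
  by_cases h : (t i = t j ∧ t j = t k ∧ t k = t l) ∧ o (t i)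
  · rw [if_pos h, Finset.sum_eq_single (t i)]
    · unfold H56E.blk
      exact if_pos ⟨rfl, h.1.1.symm, (h.1.1.trans h.1.2.1).symm, (h.1.1.trans (h.1.2.1.trans h.1.2.2)).symm⟩
    · intro c _ hc
      unfold H56E.blk
      exact if_neg fun h' => hc h'.1.symm
    · intro h'
      exact absurd (Finset.mem_filter.2 ⟨Finset.mem_image_of_mem t (Finset.mem_univ i), h.2⟩) h'
  · rw [if_neg h]
    refine Finset.sum_eq_zero fun c hc => ?_
    unfold H56E.blk
    refine if_neg fun h' => h ⟨⟨h'.1.trans h'.2.1.symm, h'.2.1.trans h'.2.2.1.symm, h'.2.2.1.trans h'.2.2.2.symm⟩, ?_⟩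
    rw [h'.1]
    exact (Finset.mem_filter.1 hc).2

theorem S8_x {N : ℕ} {R : Arr N} (hR : IsAlgCurv R) {s t : Fin N → ℕ} {P : ℕ → Fin N → Fin N → ℝ} (hr : Ref s t)
    (hT : ∀ i j k l, R i j k l ≠ 0 → (s i = s k ∧ s j = s l) ∨ (s i = s l ∧ s j = s k))
    (hP : ∀ i j k l, t i ≠ t j → s i = s k → s j = s l → R i j k l = (if i = k then P (s i) j l else 0) + (if j = l then P (s j) i k else 0))
    {c : ℝ} (hK : KB c R) (o : ℕ → Prop) : (fun i j k l => - R i j k l - yr o t c R i j k l) ∈ AddSubmonoid.closure (GenS s (bo o t c R)) := by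
  classical
  obtain ⟨lam, hl1, hl2⟩ := A10 hr hP hK
  have hd := A11_dec hR hr hT hP hl1
  have e : (fun i j k l => - R i j k l - yr o t c R i j k l) = ∑ b ∈ ((Finset.univ : Finset (Fin N)).image t).filter (fun b => ¬ o b), H56E.blk t b (xr c R) +
      ∑ a, ∑ b ∈ (Finset.univ : Finset (Fin N)).image s, kna a (A11_Q s t P lam a b) := by
    funext i j k l
    have e1 : (∑ b ∈ ((Finset.univ : Finset (Fin N)).image t).filter (fun b => ¬ o b), H56E.blk t b (xr c R) +
        ∑ a, ∑ b ∈ (Finset.univ : Finset (Fin N)).image s, kna a (A11_Q s t P lam a b)) i j k l =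
        (∑ b ∈ ((Finset.univ : Finset (Fin N)).image t).filter (fun b => ¬ o b), H56E.blk t b (xr c R) i j k l) + ∑ a, ∑ b ∈ (Finset.univ : Finset (Fin N)).image s, kna a (A11_Q s t P lam a b) i j k l := by
      simp only [Pi.add_apply, Finset.sum_apply]
    have e2 : xr c R i j k l = (∑ b ∈ (Finset.univ : Finset (Fin N)).image t, H56E.blk t b (xr c R) i j k l) + ∑ a, ∑ b ∈ (Finset.univ : Finset (Fin N)).image s, kna a (A11_Q s t P lam a b) i j k l := by
      have e3 := congrFun (congrFun (congrFun (congrFun hd i) j) k) l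
      rw [e3]
      simp only [Pi.add_apply, Finset.sum_apply]
    rw [e1, S8_sum (fun b => ¬ o b) t (fun _ => xr c R)]
    have e4 := Finset.sum_filter_add_sum_filter_not ((Finset.univ : Finset (Fin N)).image t) o (fun b => H56E.blk t b (xr c R) i j k l)
    rw [S8_sum o t (fun _ => xr c R), S8_sum (fun b => ¬ o b) t (fun _ => xr c R)] at e4
    rw [← e4] at e2
    have e5 : yr o t c R i j k l = if (t i = t j ∧ t j = t k ∧ t k = t l) ∧ o (t i) then - R i j k l else c * idA N i j k l := rfl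
    have e6 : xr c R i j k l = - R i j k l - c * idA N i j k l := rfl
    rw [e5]
    by_cases h : (t i = t j ∧ t j = t k ∧ t k = t l) ∧ o (t i)
    · rw [if_pos h] at e2 ⊢
      linarith
    · rw [if_neg h] at e2 ⊢
      linarith
  rw [e]
  refine add_mem (sum_mem fun b hb => AddSubmonoid.subset_closure (Or.inl ⟨b, ?_⟩)) (sum_mem fun a _ => sum_mem fun b _ => A9 _ a (A11_Q_symm hR hr hP lam a b) (A11_Q_supp lam a b) (A11_Q_psd hr hl2 a b))
  unfold bo
  exact (if_neg (Finset.mem_filter.1 hb).2).symm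

theorem S8_sq {N : ℕ} (C : ℝ) {D : Fin N → Fin N → Prop} (hD : ∀ a b, D a b → D b a) [∀ a b, Decidable (D a b)] (a b i j k l : Fin N) :
    (if D a b then 0 else sqf (ei a) (C • ei b) i j k l) = if D i j then 0 else sqf (ei a) (C • ei b) i j k l := by
  classical
  by_cases h0 : sqf (ei a) (C • ei b) i j k l = 0
  · rw [h0, ite_self, ite_self]
  · have h1 : (i = a ∧ j = b) ∨ (j = a ∧ i = b) := by
      by_contra hcon
      apply h0
      have e : ∀ x y : Fin N, ¬ (x = a ∧ y = b) → (ei a) x * (C • ei b) y = 0 := by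
        intro x y hxy
        rw [Pi.smul_apply, ei, ei, Pi.single_apply, Pi.single_apply, smul_eq_mul]
        by_cases hx : x = a
        · rw [if_neg (fun hy : y = b => hxy ⟨hx, hy⟩), mul_zero, mul_zero]
        · rw [if_neg hx, zero_mul]
      unfold sqf
      rw [e i j fun h => hcon (Or.inl h), e j i fun h => hcon (Or.inr h), sub_zero, zero_mul]
    have h2 : D a b ↔ D i j := by
      rcases h1 with ⟨h1, h2⟩ | ⟨h1, h2⟩
      · rw [h1, h2]
      · rw [h1, h2]
        exact ⟨hD _ _, hD _ _⟩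
    by_cases h3 : D i j
    · rw [if_pos h3, if_pos (h2.2 h3)]
    · rw [if_neg h3, if_neg fun h => h3 (h2.1 h)]

theorem S8_y {N : ℕ} (R : Arr N) (s t : Fin N → ℕ) {c : ℝ} (hc : 0 ≤ c) (o : ℕ → Prop) : yr o t c R ∈ AddSubmonoid.closure (GenS s (bo o t c R)) := by
  classical
  have e : yr o t c R = ∑ b ∈ ((Finset.univ : Finset (Fin N)).image t).filter o, H56E.blk t b (fun i j k l => - R i j k l) +
      ∑ a : Fin N, ∑ b : Fin N, (if t a = t b ∧ o (t a) then 0 else sqf (ei a) (Real.sqrt (c / 2) • ei b)) := by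
    funext i j k l
    have e1 : (∑ b ∈ ((Finset.univ : Finset (Fin N)).image t).filter o, H56E.blk t b (fun i j k l => - R i j k l) +
        ∑ a : Fin N, ∑ b : Fin N, (if t a = t b ∧ o (t a) then 0 else sqf (ei a) (Real.sqrt (c / 2) • ei b))) i j k l =
        (∑ b ∈ ((Finset.univ : Finset (Fin N)).image t).filter o, H56E.blk t b (fun i j k l => - R i j k l) i j k l) +
        ∑ a : Fin N, ∑ b : Fin N, (if t a = t b ∧ o (t a) then 0 else sqf (ei a) (Real.sqrt (c / 2) • ei b) i j k l) := by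
      simp only [Pi.add_apply, Finset.sum_apply]
      refine congrArg _ (Finset.sum_congr rfl fun a _ => Finset.sum_congr rfl fun b _ => ?_)
      split_ifs
      · rfl
      · rfl
    have e2 : ∑ a : Fin N, ∑ b : Fin N, (if t a = t b ∧ o (t a) then 0 else sqf (ei a) (Real.sqrt (c / 2) • ei b) i j k l) =
        if t i = t j ∧ o (t i) then 0 else c * idA N i j k l := by
      have e3 : ∀ a b : Fin N, (if t a = t b ∧ o (t a) then 0 else sqf (ei a) (Real.sqrt (c / 2) • ei b) i j k l) =
          if t i = t j ∧ o (t i) then 0 else sqf (ei a) (Real.sqrt (c / 2) • ei b) i j k l := fun a b =>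
        S8_sq (Real.sqrt (c / 2)) (D := fun a b => t a = t b ∧ o (t a)) (fun a b h => ⟨h.1.symm, by rw [← h.1]; exact h.2⟩) a b i j k l
      rw [Finset.sum_congr rfl fun a _ => Finset.sum_congr rfl fun b _ => e3 a b]
      by_cases h : t i = t j ∧ o (t i)
      · simp only [if_pos h, Finset.sum_const_zero]
      · simp only [if_neg h]
        rw [A8_sum2, Real.sq_sqrt (by positivity)]
        ring
    rw [e1, e2, S8_sum o t (fun _ => fun i j k l => - R i j k l)]
    unfold yr
    by_cases h : (t i = t j ∧ t j = t k ∧ t k = t l) ∧ o (t i)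
    · rw [if_pos h, if_pos h, if_pos ⟨h.1.1, h.2⟩, add_zero]
    · rw [if_neg h, if_neg h, zero_add]
      by_cases h2 : t i = t j ∧ o (t i)
      · rw [if_pos h2, A11_idA_zero, mul_zero]
        · rintro ⟨rfl, rfl⟩
          exact h ⟨⟨h2.1, h2.1.symm, h2.1⟩, h2.2⟩
        · rintro ⟨rfl, rfl⟩
          exact h ⟨⟨h2.1, rfl, h2.1.symm⟩, h2.2⟩
      · rw [if_neg h2]
  rw [e]
  refine add_mem (sum_mem fun b hb => AddSubmonoid.subset_closure (Or.inl ⟨b, ?_⟩)) (sum_mem fun a _ => sum_mem fun b _ => ?_)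
  · unfold bo
    exact (if_pos (Finset.mem_filter.1 hb).2).symm
  · by_cases h : t a = t b ∧ o (t a)
    · rw [if_pos h]
      exact zero_mem _
    · rw [if_neg h]
      refine AddSubmonoid.subset_closure (Or.inr ⟨ei a, Real.sqrt (c / 2) • ei b, ?_, A8_cls s b _, rfl⟩)
      have h2 := A8_cls s a 1
      rwa [one_smul] at h2

end H56F
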