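import Pool.Agent.Lib.H56F.S0

/-!
# S9 (M): properties of `yr`

`D i j = (t i = t j ∧ o (t i))`. For an array `W`: `∑ yr W W = ∑ b ∈ image t with o b, (∑ - R W_b W_b) + (c / 2) ∑ i j with ¬ D, (W i j - W j i) ^ 2`, `W_b i j = if t i = b ∧ t j = b then W i j else 0`. The first sum is `≥ 0` by `OpIn`. For `W i j = v i * w j`: `W_b` comes from `v_b`, `w_b`
(`KB c R` for these), `area2 v w = (1 / 2) ∑ i j, (v i w j - v j w i) ^ 2` (`area2_eq` in `Lib/H69/Hopf`).
`S9_alg`: `IsAlgCurv`: all symmetries preserve the condition `t i = t j = t k = t l` (only the set of the clusters of the four indices matters).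
-/

set_option autoImplicit false

open Finset

namespace H56F

open Pool.Agent.H69Hopf
open H56E
open H30K (KB Cyc)

theorem S9_alg {N : ℕ} {R : Arr N} (hR : IsAlgCurv R) (o : ℕ → Prop) (t : Fin N → ℕ) (c : ℝ) : IsAlgCurv (yr o t c R) := by
  classical
  have hs : ∀ (i k : Fin N), (if i = k then (1:ℝ) else 0) = if k = i then 1 else 0 := by
    intro i k
    by_cases hh : i = k
    · rw [if_pos hh, if_pos hh.symm]
    · rw [if_neg hh, if_neg (fun h' => hh h'.symm)]
  refine ⟨fun i j k l => ?_, fun i j k l => ?_, fun i j k l => ?_⟩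
  · unfold yr
    by_cases h : (t i = t j ∧ t j = t k ∧ t k = t l) ∧ o (t i)
    · have h' : (t j = t i ∧ t i = t k ∧ t k = t l) ∧ o (t j) := ⟨⟨h.1.1.symm, h.1.1.trans h.1.2.1, h.1.2.2⟩, by rw [← h.1.1]; exact h.2⟩
      rw [if_pos h, if_pos h', hR.skew i j k l]
    · have h' : ¬ ((t j = t i ∧ t i = t k ∧ t k = t l) ∧ o (t j)) := fun h' => h ⟨⟨h'.1.1.symm, h'.1.1.trans h'.1.2.1, h'.1.2.2⟩, by rw [← h'.1.1]; exact h'.2⟩
      rw [if_neg h, if_neg h']
      unfold idA
      ring
  · unfold yr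
    by_cases h : (t i = t j ∧ t j = t k ∧ t k = t l) ∧ o (t i)
    · have h' : (t k = t l ∧ t l = t i ∧ t i = t j) ∧ o (t k) :=
        ⟨⟨h.1.2.2, (h.1.1.trans (h.1.2.1.trans h.1.2.2)).symm, h.1.1⟩, by rw [← h.1.1.trans h.1.2.1]; exact h.2⟩
      rw [if_pos h, if_pos h', hR.pair i j k l]
    · have h' : ¬ ((t k = t l ∧ t l = t i ∧ t i = t j) ∧ o (t k)) := fun h' =>
        h ⟨⟨h'.1.2.2, (h'.1.1.trans (h'.1.2.1.trans h'.1.2.2)).symm, h'.1.1⟩, by rw [← h'.1.1.trans h'.1.2.1]; exact h'.2⟩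
      rw [if_neg h, if_neg h']
      unfold idA
      rw [hs k i, hs l j, hs k j, hs l i]
      ring
  · unfold yr
    by_cases h : (t i = t j ∧ t j = t k ∧ t k = t l) ∧ o (t i)
    · have h1 : (t j = t k ∧ t k = t i ∧ t i = t l) ∧ o (t j) :=
        ⟨⟨h.1.2.1, (h.1.1.trans h.1.2.1).symm, h.1.1.trans (h.1.2.1.trans h.1.2.2)⟩, by rw [← h.1.1]; exact h.2⟩
      have h2 : (t k = t i ∧ t i = t j ∧ t j = t l) ∧ o (t k) :=
        ⟨⟨(h.1.1.trans h.1.2.1).symm, h.1.1, h.1.2.1.trans h.1.2.2⟩, by rw [← h.1.1.trans h.1.2.1]; exact h.2⟩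
      rw [if_pos h, if_pos h1, if_pos h2]
      have h3 := hR.bianchi i j k l
      linarith
    · have h1 : ¬ ((t j = t k ∧ t k = t i ∧ t i = t l) ∧ o (t j)) := fun h' =>
        h ⟨⟨(h'.1.1.trans h'.1.2.1).symm, h'.1.1, h'.1.2.1.trans h'.1.2.2⟩, by rw [← h'.1.1.trans h'.1.2.1]; exact h'.2⟩
      have h2 : ¬ ((t k = t i ∧ t i = t j ∧ t j = t l) ∧ o (t k)) := fun h' =>
        h ⟨⟨h'.1.2.1, (h'.1.1.trans h'.1.2.1).symm, h'.1.1.trans (h'.1.2.1.trans h'.1.2.2)⟩, by rw [← h'.1.1]; exact h'.2⟩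
      rw [if_neg h, if_neg h1, if_neg h2]
      unfold idA
      rw [hs j i, hs k i, hs k j]
      ring

theorem S9_id {N : ℕ} (f : Fin N → Fin N → ℝ) (i j : Fin N) : ∑ p, ∑ q, idA N i j p q * f p q = f i j - f j i := by
  have h1 : ∀ p q : Fin N, idA N i j p q * f p q = (if i = p then (if j = q then f p q else 0) else 0) - (if j = p then (if i = q then f p q else 0) else 0) := by
    intro p q
    unfold idA
    split_ifs <;> ring
  have h2 : ∀ x y : Fin N, ∑ p, ∑ q, (if x = p then (if y = q then f p q else 0) else 0) = f x y := by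
    intro x y
    rw [Finset.sum_eq_single x]
    · rw [Finset.sum_eq_single y]
      · rw [if_pos rfl, if_pos rfl]
      · intro q _ hq
        rw [if_pos rfl, if_neg fun h => hq h.symm]
      · intro h
        exact absurd (Finset.mem_univ _) h
    · intro p _ hp
      exact Finset.sum_eq_zero fun q _ => if_neg fun h => hp h.symm
    · intro h
      exact absurd (Finset.mem_univ _) h
  rw [Finset.sum_congr rfl fun p _ => Finset.sum_congr rfl fun q _ => h1 p q]
  simp only [Finset.sum_sub_distrib]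
  rw [h2, h2]

open Classical in
theorem S9_split {N : ℕ} (R : Arr N) (o : ℕ → Prop) (t : Fin N → ℕ) (c : ℝ) (i j k l : Fin N) :
    yr o t c R i j k l = (∑ b ∈ ((Finset.univ : Finset (Fin N)).image t).filter o, H56E.blk t b (fun i j k l => - R i j k l) i j k l) +
      if t i = t j ∧ o (t i) then 0 else c * idA N i j k l := by
  have hsum : (∑ b ∈ ((Finset.univ : Finset (Fin N)).image t).filter o, H56E.blk t b (fun i j k l => - R i j k l) i j k l) =
      if (t i = t j ∧ t j = t k ∧ t k = t l) ∧ o (t i) then - R i j k l else 0 := by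
    by_cases h : (t i = t j ∧ t j = t k ∧ t k = t l) ∧ o (t i)
    · rw [if_pos h, Finset.sum_eq_single (t i)]
      · unfold H56E.blk
        exact if_pos ⟨rfl, h.1.1.symm, (h.1.1.trans h.1.2.1).symm, (h.1.1.trans (h.1.2.1.trans h.1.2.2)).symm⟩
      · intro c _ hc
        unfold H56E.blk
        exact if_neg fun h' => hc h'.1.symm
      · intro h'
        exact absurd (Finset.mem_filter.2 ⟨Finset.mem_image_of_mem t (Finset.mem_univ i), h.2⟩) h'
    · rw [if_neg h]
      refine Finset.sum_eq_zero fun c hc => ?_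
      unfold H56E.blk
      refine if_neg fun h' => h ⟨⟨h'.1.trans h'.2.1.symm, h'.2.1.trans h'.2.2.1.symm, h'.2.2.1.trans h'.2.2.2.symm⟩, ?_⟩
      rw [h'.1]
      exact (Finset.mem_filter.1 hc).2
  rw [hsum]
  unfold yr
  by_cases h : (t i = t j ∧ t j = t k ∧ t k = t l) ∧ o (t i)
  · rw [if_pos h, if_pos h, if_pos ⟨h.1.1, h.2⟩, add_zero]
  · rw [if_neg h, if_neg h, zero_add]
    by_cases h2 : t i = t j ∧ o (t i)
    · rw [if_pos h2, A11_idA_zero, mul_zero]
      · rintro ⟨rfl, rfl⟩
        exact h ⟨⟨h2.1, h2.1.symm, h2.1⟩, h2.2⟩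
      · rintro ⟨rfl, rfl⟩
        exact h ⟨⟨h2.1, rfl, h2.1.symm⟩, h2.2⟩
    · rw [if_neg h2]

open Classical in
theorem S9_key {N : ℕ} (R : Arr N) (o : ℕ → Prop) (t : Fin N → ℕ) (c : ℝ) (W : Fin N → Fin N → ℝ) :
    ∑ i, ∑ j, ∑ p, ∑ q, yr o t c R i j p q * (W i j * W p q) =
      (∑ b ∈ ((Finset.univ : Finset (Fin N)).image t).filter o,
        ∑ i, ∑ j, ∑ p, ∑ q, - R i j p q * ((if t i = b ∧ t j = b then W i j else 0) * (if t p = b ∧ t q = b then W p q else 0))) +
      ∑ i, ∑ j, if t i = t j ∧ o (t i) then 0 else c / 2 * (W i j - W j i) ^ 2 := by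
  have e1 : ∑ i, ∑ j, ∑ p, ∑ q, yr o t c R i j p q * (W i j * W p q) =
      (∑ i, ∑ j, ∑ p, ∑ q, ∑ b ∈ ((Finset.univ : Finset (Fin N)).image t).filter o,
        - R i j p q * ((if t i = b ∧ t j = b then W i j else 0) * (if t p = b ∧ t q = b then W p q else 0))) +
      ∑ i, ∑ j, ∑ p, ∑ q, (if t i = t j ∧ o (t i) then 0 else c * idA N i j p q) * (W i j * W p q) := by
    simp only [← Finset.sum_add_distrib]
    refine Finset.sum_congr rfl fun i _ => Finset.sum_congr rfl fun j _ => Finset.sum_congr rfl fun p _ => Finset.sum_congr rfl fun q _ => ?_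
    rw [S9_split, add_mul, Finset.sum_mul]
    refine congrArg₂ (· + ·) (Finset.sum_congr rfl fun b _ => ?_) rfl
    unfold H56E.blk
    by_cases h1 : t i = b ∧ t j = b
    · by_cases h2 : t p = b ∧ t q = b
      · rw [if_pos ⟨h1.1, h1.2, h2.1, h2.2⟩, if_pos h1, if_pos h2]
      · rw [if_neg fun h => h2 ⟨h.2.2.1, h.2.2.2⟩, if_neg h2, mul_zero, mul_zero, zero_mul]
    · rw [if_neg fun h => h1 ⟨h.1, h.2.1⟩, if_neg h1, zero_mul, zero_mul, mul_zero]
  have e2 : (∑ i, ∑ j, ∑ p, ∑ q, ∑ b ∈ ((Finset.univ : Finset (Fin N)).image t).filter o,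
        - R i j p q * ((if t i = b ∧ t j = b then W i j else 0) * (if t p = b ∧ t q = b then W p q else 0))) =
      ∑ b ∈ ((Finset.univ : Finset (Fin N)).image t).filter o,
        ∑ i, ∑ j, ∑ p, ∑ q, - R i j p q * ((if t i = b ∧ t j = b then W i j else 0) * (if t p = b ∧ t q = b then W p q else 0)) := by
    rw [Finset.sum_comm]
    rw [Finset.sum_comm]
    have s1 : ∀ (F : Fin N → ℕ → ℝ) (S : Finset ℕ), ∑ i, ∑ b ∈ S, F i b = ∑ b ∈ S, ∑ i, F i b := fun F S => Finset.sum_comm
    calc _ = ∑ i : Fin N, ∑ j : Fin N, ∑ p : Fin N, ∑ b ∈ ((Finset.univ : Finset (Fin N)).image t).filter o, ∑ q : Fin N,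
          - R i j p q * ((if t i = b ∧ t j = b then W i j else 0) * (if t p = b ∧ t q = b then W p q else 0)) :=
          Finset.sum_congr rfl fun i _ => Finset.sum_congr rfl fun j _ => Finset.sum_congr rfl fun p _ => s1 _ _
      _ = ∑ i : Fin N, ∑ j : Fin N, ∑ b ∈ ((Finset.univ : Finset (Fin N)).image t).filter o, ∑ p : Fin N, ∑ q : Fin N,
          - R i j p q * ((if t i = b ∧ t j = b then W i j else 0) * (if t p = b ∧ t q = b then W p q else 0)) :=
          Finset.sum_congr rfl fun i _ => Finset.sum_congr rfl fun j _ => s1 _ _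
      _ = ∑ i : Fin N, ∑ b ∈ ((Finset.univ : Finset (Fin N)).image t).filter o, ∑ j : Fin N, ∑ p : Fin N, ∑ q : Fin N,
          - R i j p q * ((if t i = b ∧ t j = b then W i j else 0) * (if t p = b ∧ t q = b then W p q else 0)) :=
          Finset.sum_congr rfl fun i _ => s1 _ _
      _ = _ := s1 _ _
  have e3 : ∑ i, ∑ j, ∑ p, ∑ q, (if t i = t j ∧ o (t i) then 0 else c * idA N i j p q) * (W i j * W p q) =
      ∑ i, ∑ j, if t i = t j ∧ o (t i) then 0 else c * (W i j * (W i j - W j i)) := by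
    refine Finset.sum_congr rfl fun i _ => Finset.sum_congr rfl fun j _ => ?_
    by_cases h : t i = t j ∧ o (t i)
    · simp only [if_pos h, zero_mul, Finset.sum_const_zero]
    · simp only [if_neg h]
      rw [← S9_id W i j, Finset.mul_sum, Finset.mul_sum]
      refine Finset.sum_congr rfl fun p _ => ?_
      rw [Finset.mul_sum, Finset.mul_sum]
      refine Finset.sum_congr rfl fun q _ => ?_
      ring
  have e4 : (∑ i, ∑ j, if t i = t j ∧ o (t i) then 0 else c * (W i j * (W i j - W j i))) =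
      ∑ i, ∑ j, if t i = t j ∧ o (t i) then 0 else c / 2 * (W i j - W j i) ^ 2 := by
    have h1 : (∑ i, ∑ j, if t i = t j ∧ o (t i) then 0 else c * (W i j * (W i j - W j i))) =
        ∑ i, ∑ j, if t i = t j ∧ o (t i) then 0 else c * (W j i * (W j i - W i j)) := by
      rw [Finset.sum_comm]
      refine Finset.sum_congr rfl fun i _ => Finset.sum_congr rfl fun j _ => ?_
      by_cases h : t i = t j ∧ o (t i)
      · rw [if_pos h, if_pos ⟨h.1.symm, by rw [← h.1]; exact h.2⟩]
      · rw [if_neg h, if_neg fun h' => h ⟨h'.1.symm, by rw [← h'.1]; exact h'.2⟩]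
    have h2 : (∑ i, ∑ j, if t i = t j ∧ o (t i) then 0 else c * (W i j * (W i j - W j i))) + (∑ i, ∑ j, if t i = t j ∧ o (t i) then 0 else c * (W j i * (W j i - W i j))) =
        2 * ∑ i, ∑ j, if t i = t j ∧ o (t i) then 0 else c / 2 * (W i j - W j i) ^ 2 := by
      rw [← Finset.sum_add_distrib, Finset.mul_sum]
      refine Finset.sum_congr rfl fun i _ => ?_
      rw [← Finset.sum_add_distrib, Finset.mul_sum]
      refine Finset.sum_congr rfl fun j _ => ?_
      by_cases h : t i = t j ∧ o (t i)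
      · rw [if_pos h, if_pos h, if_pos h]
        ring
      · rw [if_neg h, if_neg h, if_neg h]
        ring
    linarith
  rw [e1, e2, e3, e4]

theorem S9_psd {N : ℕ} {R : Arr N} {o : ℕ → Prop} {t : Fin N → ℕ} {c : ℝ} (hc : 0 ≤ c) (ho : ∀ a, o a → OpIn R t a) : PsdOp (yr o t c R) := by
  classical
  intro W
  rw [S9_key]
  refine add_nonneg (Finset.sum_nonneg fun b hb => ?_) (Finset.sum_nonneg fun i _ => Finset.sum_nonneg fun j _ => ?_)
  · have h := ho b (Finset.mem_filter.1 hb).2 (fun i j => if t i = b ∧ t j = b then W i j else 0) (by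
      intro i j hij
      by_contra h
      exact hij (if_neg h))
    simp only [neg_mul, Finset.sum_neg_distrib]
    linarith
  · split_ifs
    · exact le_refl _
    · positivity

theorem S9_area {N : ℕ} (v w : Fin N → ℝ) : area2 v w = ∑ i, ∑ j, 1 / 2 * (v i * w j - v j * w i) ^ 2 := by
  have h : ∑ i, ∑ j, 1 / 2 * (v i * w j - v j * w i) ^ 2 =
      1 / 2 * (∑ i, ∑ j, v i ^ 2 * w j ^ 2) + 1 / 2 * (∑ i, ∑ j, w i ^ 2 * v j ^ 2) - ∑ i, ∑ j, (v i * w i) * (v j * w j) := by
    rw [Finset.mul_sum, Finset.mul_sum, ← Finset.sum_add_distrib, ← Finset.sum_sub_distrib]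
    refine Finset.sum_congr rfl fun i _ => ?_
    rw [Finset.mul_sum, Finset.mul_sum, ← Finset.sum_add_distrib, ← Finset.sum_sub_distrib]
    refine Finset.sum_congr rfl fun j _ => ?_
    ring
  rw [h, ← Finset.sum_mul_sum, ← Finset.sum_mul_sum, ← Finset.sum_mul_sum]
  unfold area2
  ring

theorem S9_sec {N : ℕ} {R : Arr N} {o : ℕ → Prop} {t : Fin N → ℕ} {c : ℝ} (hK : KB c R) (v w : Fin N → ℝ) : c * area2 v w ≤ ev (yr o t c R) v w v w := by
  classical
  have e1 : ev (yr o t c R) v w v w = ∑ i, ∑ j, ∑ p, ∑ q, yr o t c R i j p q * ((v i * w j) * (v p * w q)) := by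
    unfold ev
    refine Finset.sum_congr rfl fun i _ => Finset.sum_congr rfl fun j _ => Finset.sum_congr rfl fun p _ => Finset.sum_congr rfl fun q _ => ?_
    ring
  rw [e1, S9_key R o t c fun i j => v i * w j]
  have e2 : ∀ b, c * (∑ i, ∑ j, if t i = b ∧ t j = b then 1 / 2 * (v i * w j - v j * w i) ^ 2 else 0) ≤
      ∑ i, ∑ j, ∑ p, ∑ q, - R i j p q * ((if t i = b ∧ t j = b then v i * w j else 0) * (if t p = b ∧ t q = b then v p * w q else 0)) := by
    intro b
    have h1 := hK (fun i => if t i = b then v i else 0) (fun i => if t i = b then w i else 0)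
    have h2 : area2 (fun i => if t i = b then v i else 0) (fun i => if t i = b then w i else 0) =
        ∑ i, ∑ j, if t i = b ∧ t j = b then 1 / 2 * (v i * w j - v j * w i) ^ 2 else 0 := by
      rw [S9_area]
      refine Finset.sum_congr rfl fun i _ => Finset.sum_congr rfl fun j _ => ?_
      by_cases hi : t i = b
      · by_cases hj : t j = b
        · simp only [if_pos hi, if_pos hj]
          rw [if_pos ⟨hi, hj⟩]
        · simp only [if_neg hj, if_neg fun h : t i = b ∧ t j = b => hj h.2]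
          ring
      · simp only [if_neg hi, if_neg fun h : t i = b ∧ t j = b => hi h.1]
        ring
    have h3 : ∑ i, ∑ j, ∑ p, ∑ q, - R i j p q * ((if t i = b ∧ t j = b then v i * w j else 0) * (if t p = b ∧ t q = b then v p * w q else 0)) =
        - ev R (fun i => if t i = b then v i else 0) (fun i => if t i = b then w i else 0) (fun i => if t i = b then v i else 0) (fun i => if t i = b then w i else 0) := by
      unfold ev
      simp only [← Finset.sum_neg_distrib]
      refine Finset.sum_congr rfl fun i _ => Finset.sum_congr rfl fun j _ => Finset.sum_congr rfl fun p _ => Finset.sum_congr rfl fun q _ => ?_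
      have h4 : ∀ x y : Fin N, (if t x = b ∧ t y = b then v x * w y else 0) = (if t x = b then v x else 0) * (if t y = b then w y else 0) := by
        intro x y
        by_cases hx : t x = b
        · by_cases hy : t y = b
          · rw [if_pos ⟨hx, hy⟩, if_pos hx, if_pos hy]
          · rw [if_neg fun h => hy h.2, if_neg hy, mul_zero]
        · rw [if_neg fun h => hx h.1, if_neg hx, zero_mul]
      rw [h4, h4]
      ring
    rw [h3, ← h2]
    linarith
  have e3 : c * area2 v w = (∑ b ∈ ((Finset.univ : Finset (Fin N)).image t).filter o, c * (∑ i, ∑ j, if t i = b ∧ t j = b then 1 / 2 * (v i * w j - v j * w i) ^ 2 else 0)) +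
      ∑ i, ∑ j, if t i = t j ∧ o (t i) then 0 else c / 2 * (v i * w j - v j * w i) ^ 2 := by
    have h1 : (∑ b ∈ ((Finset.univ : Finset (Fin N)).image t).filter o, c * (∑ i, ∑ j, if t i = b ∧ t j = b then 1 / 2 * (v i * w j - v j * w i) ^ 2 else 0)) =
        ∑ i, ∑ j, if t i = t j ∧ o (t i) then c / 2 * (v i * w j - v j * w i) ^ 2 else 0 := by
      have s1 : ∀ (F : Fin N → ℕ → ℝ) (S : Finset ℕ), ∑ b ∈ S, ∑ i, F i b = ∑ i, ∑ b ∈ S, F i b := fun F S => Finset.sum_comm
      rw [← Finset.mul_sum, s1, Finset.mul_sum]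
      refine Finset.sum_congr rfl fun i _ => ?_
      rw [s1, Finset.mul_sum]
      refine Finset.sum_congr rfl fun j _ => ?_
      by_cases h : t i = t j ∧ o (t i)
      · rw [if_pos h, Finset.sum_eq_single (t i)]
        · rw [if_pos ⟨rfl, h.1.symm⟩]
          ring
        · intro b _ hb
          exact if_neg fun h' => hb h'.1.symm
        · intro h'
          exact absurd (Finset.mem_filter.2 ⟨Finset.mem_image_of_mem t (Finset.mem_univ i), h.2⟩) h'
      · rw [if_neg h, Finset.sum_eq_zero, mul_zero]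
        intro b hb
        refine if_neg fun h' => h ⟨h'.1.trans h'.2.symm, ?_⟩
        rw [h'.1]
        exact (Finset.mem_filter.1 hb).2
    rw [h1, S9_area, Finset.mul_sum, ← Finset.sum_add_distrib]
    refine Finset.sum_congr rfl fun i _ => ?_
    rw [Finset.mul_sum, ← Finset.sum_add_distrib]
    refine Finset.sum_congr rfl fun j _ => ?_
    by_cases h : t i = t j ∧ o (t i)
    · rw [if_pos h, if_pos h]
      ring
    · rw [if_neg h, if_neg h]
      ring
  rw [e3]
  exact add_le_add (Finset.sum_le_sum fun b _ => e2 b) (le_refl _)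

theorem S9_bd {N : ℕ} {R : Arr N} {C : ℝ} (hC : ∀ i j k l, |R i j k l| ≤ C) {o : ℕ → Prop} {t : Fin N → ℕ} {c : ℝ} (hc : 0 ≤ c) (i j k l : Fin N) : |yr o t c R i j k l| ≤ C + c := by
  classical
  have h0 : 0 ≤ C := (abs_nonneg _).trans (hC i j k l)
  unfold yr
  by_cases h : (t i = t j ∧ t j = t k ∧ t k = t l) ∧ o (t i)
  · rw [if_pos h, abs_neg]
    linarith [hC i j k l]
  · rw [if_neg h, abs_mul, abs_of_nonneg hc]
    have h1 : |idA N i j k l| ≤ 1 := by
      unfold idA
      split_ifs <;> norm_num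
    have h2 : c * |idA N i j k l| ≤ c * 1 := mul_le_mul_of_nonneg_left h1 hc
    linarith

end H56F
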