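import Pool.Agent.Lib.H56F.S3
import Pool.Agent.Lib.H56F.S7
import Pool.Agent.Lib.H56F.S8
import Pool.Agent.Lib.H56F.S9
import Pool.Agent.Lib.H56E.K2

/-!
# S10 (S/M): the pointwise theorem

`o a = ¬ AdmIn s t a`. `S10_pos`: for `AdmIn` clusters `H56E.K2_one` (`Lib/H56E/K2.lean`), for the others `pull v (blk t a (- R))` is a curvature tensor (`H56C.L4_alg`; `pull v (blk t a (- R)) = pull v (- R)` as in `a12_pull`) with `PsdOp` (push `W` forward: `W' p q = ∑ W i j v i p v j q`, supported in the cluster):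
`S3_nonneg`.
`S10_ge`: `H56E.A7_mono` with `H56E.A6`, `S8_x`, `S8_y`. `S10_nonneg`: `A7_closure` (or `S10_ge` and `S3_nonneg` for `yr`). `S10_strict`: `S10_ge`, `S9`, `S7` with `C + c`.
-/

set_option autoImplicit false

open Finset

namespace H56F

open Pool.Agent.H69Hopf
open H56E
open H30K (KB Cyc)

theorem s10_neg {N : ℕ} {R : Arr N} (hR : IsAlgCurv R) : IsAlgCurv (fun i j k l => - R i j k l) where
  skew i j k l := by
    show - R i j k l = - - R j i k l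
    rw [hR.skew i j k l]
  pair i j k l := by
    show - R i j k l = - R k l i j
    rw [hR.pair i j k l]
  bianchi i j k l := by
    show - R i j k l + - R j k i l + - R k i j l = 0
    have h := hR.bianchi i j k l
    linarith

theorem s10_pull {M N : ℕ} (X : Arr N) (t : Fin N → ℕ) (a : ℕ) (v : Fin M → (Fin N → ℝ)) (hs : ∀ k i, v k i ≠ 0 → t i = a) :
    pull v (H56E.blk t a X) = pull v X := by
  funext i j k l
  unfold pull ev
  refine Finset.sum_congr rfl fun p _ => ?_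
  refine Finset.sum_congr rfl fun q _ => ?_
  refine Finset.sum_congr rfl fun u _ => ?_
  refine Finset.sum_congr rfl fun w _ => ?_
  unfold H56E.blk
  by_cases h0 : v i p = 0
  · rw [h0]
    ring
  by_cases h1 : v j q = 0
  · rw [h1]
    ring
  by_cases h2 : v k u = 0
  · rw [h2]
    ring
  by_cases h3 : v l w = 0
  · rw [h3]
    ring
  rw [if_pos ⟨hs _ _ h0, hs _ _ h1, hs _ _ h2, hs _ _ h3⟩]

/-- the push-forward of a two-vector -/
def s10_W {M N : ℕ} (v : Fin M → (Fin N → ℝ)) (W : Fin M → Fin M → ℝ) : Fin N → Fin N → ℝ := fun p q => ∑ i, ∑ j, W i j * v i p * v j q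

theorem s10_W_ne {M N : ℕ} {t : Fin N → ℕ} {a : ℕ} {v : Fin M → (Fin N → ℝ)} (hs : ∀ k i, v k i ≠ 0 → t i = a) (W : Fin M → Fin M → ℝ) (p q : Fin N)
    (h : s10_W v W p q ≠ 0) : t p = a ∧ t q = a := by
  unfold s10_W at h
  obtain ⟨i, _, hi⟩ := Finset.exists_ne_zero_of_sum_ne_zero h
  obtain ⟨j, _, hj⟩ := Finset.exists_ne_zero_of_sum_ne_zero hi
  refine ⟨hs i p fun h0 => hj ?_, hs j q fun h0 => hj ?_⟩
  · rw [h0]
    ring
  · rw [h0]
    ring

theorem s10_sum {M N : ℕ} (X : Arr N) (v : Fin M → (Fin N → ℝ)) (W : Fin M → Fin M → ℝ) :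
    ∑ i, ∑ j, ∑ k, ∑ l, pull v X i j k l * (W i j * W k l) = ∑ p, ∑ q, ∑ u, ∑ w, X p q u w * (s10_W v W p q * s10_W v W u w) := by
  unfold pull ev s10_W
  have e1 : ∀ p q u w, X p q u w * ((∑ i, ∑ j, W i j * v i p * v j q) * ∑ i, ∑ j, W i j * v i u * v j w) =
      ∑ i, ∑ j, ∑ k, ∑ l, X p q u w * v i p * v j q * v k u * v l w * (W i j * W k l) := by
    intro p q u w
    rw [Finset.sum_mul, Finset.mul_sum]
    refine Finset.sum_congr rfl fun i _ => ?_
    rw [Finset.sum_mul, Finset.mul_sum]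
    refine Finset.sum_congr rfl fun j _ => ?_
    rw [Finset.mul_sum, Finset.mul_sum]
    refine Finset.sum_congr rfl fun k _ => ?_
    rw [Finset.mul_sum, Finset.mul_sum]
    refine Finset.sum_congr rfl fun l _ => ?_
    ring
  have e2 : ∀ i j k l, (∑ p, ∑ q, ∑ u, ∑ w, X p q u w * v i p * v j q * v k u * v l w) * (W i j * W k l) =
      ∑ p, ∑ q, ∑ u, ∑ w, X p q u w * v i p * v j q * v k u * v l w * (W i j * W k l) := by
    intro i j k l
    simp only [Finset.sum_mul]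
  simp only [e1, e2]
  have sw : ∀ (F : Fin M → Fin N → ℝ), ∑ i, ∑ p, F i p = ∑ p, ∑ i, F i p := fun F => Finset.sum_comm
  calc ∑ i, ∑ j, ∑ k, ∑ l, ∑ p, ∑ q, ∑ u, ∑ w, X p q u w * v i p * v j q * v k u * v l w * (W i j * W k l)
      = ∑ x : Fin M × Fin M × Fin M × Fin M, ∑ y : Fin N × Fin N × Fin N × Fin N,
          X y.1 y.2.1 y.2.2.1 y.2.2.2 * v x.1 y.1 * v x.2.1 y.2.1 * v x.2.2.1 y.2.2.1 * v x.2.2.2 y.2.2.2 * (W x.1 x.2.1 * W x.2.2.1 x.2.2.2) := by
        simp only [Fintype.sum_prod_type]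
    _ = ∑ y : Fin N × Fin N × Fin N × Fin N, ∑ x : Fin M × Fin M × Fin M × Fin M,
          X y.1 y.2.1 y.2.2.1 y.2.2.2 * v x.1 y.1 * v x.2.1 y.2.1 * v x.2.2.1 y.2.2.1 * v x.2.2.2 y.2.2.2 * (W x.1 x.2.1 * W x.2.2.1 x.2.2.2) :=
        Finset.sum_comm
    _ = _ := by
        simp only [Fintype.sum_prod_type]

theorem s10_op {N : ℕ} {R : Arr N} {t : Fin N → ℕ} {a : ℕ} (ho : OpIn R t a) {M : ℕ} {v : Fin M → (Fin N → ℝ)} (hs : ∀ k i, v k i ≠ 0 → t i = a) :
    PsdOp (pull v (fun i j k l => - R i j k l)) := by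
  intro W
  rw [s10_sum]
  have h := ho (s10_W v W) (s10_W_ne hs W)
  have e : ∑ p, ∑ q, ∑ u, ∑ w, (fun i j k l => - R i j k l) p q u w * (s10_W v W p q * s10_W v W u w) =
      - ∑ p, ∑ q, ∑ u, ∑ w, R p q u w * (s10_W v W p q * s10_W v W u w) := by
    simp only [neg_mul, Finset.sum_neg_distrib]
  rw [e]
  linarith

theorem S10_pos {N : ℕ} {R : Arr N} (hR : IsAlgCurv R) {s t : Fin N → ℕ} (hT : ∀ i j k l, R i j k l ≠ 0 → (s i = s k ∧ s j = s l) ∨ (s i = s l ∧ s j = s k))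
    {c : ℝ} (hK : KB c R) {o : ℕ → Prop} (hA : ∀ a, ¬ o a → AdmIn s t a) (ho : ∀ a, o a → OpIn R t a) : Pos s t (bo o t c R) := by
  refine ⟨fun a i j k l hne => ?_, fun a r v hv hcls hsup => ?_⟩
  · by_contra hc
    apply hne
    unfold bo
    split_ifs
    · unfold H56E.blk
      rw [if_neg hc]
    · unfold H56E.blk
      rw [if_neg hc]
  · unfold bo
    split_ifs with h
    · rw [s10_pull _ t a v hsup]
      exact S3_nonneg (H56C.L4_alg (s10_neg hR) v) (s10_op (ho a h) hsup)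
    · exact K2_one hR hT (hA a h) hK hv hcls hsup

theorem S10_ge {n : ℕ} {R : Arr (2 * n)} (hR : IsAlgCurv R) (hC : Clus R) {c : ℝ} (hc : 0 ≤ c) (hK : KB c R) :
    ∃ (o : ℕ → Prop) (t : Fin (2 * n) → ℕ), (∀ a, o a → OpIn R t a) ∧ gaussBonnet n (yr o t c R) ≤ (-1) ^ n * gaussBonnet n R := by
  obtain ⟨s, t, P, hr, hT, hP, hA⟩ := hC
  have ho : ∀ a, (fun a => ¬ AdmIn s t a) a → OpIn R t a := fun a h => (hA a).resolve_left h
  refine ⟨fun a => ¬ AdmIn s t a, t, ho, ?_⟩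
  have hpos := S10_pos hR hT hK (o := fun a => ¬ AdmIn s t a) (fun a h => not_not.mp h) ho
  have hS := A6 n s t _ hr hpos
  have hX := S8_x hR (s := s) (t := t) hr hT hP hK (fun a => ¬ AdmIn s t a)
  have hY := S8_y R s t hc (fun a => ¬ AdmIn s t a)
  have hm := A7_mono hS hX hY
  have h1 : (fun i j k l => - R i j k l - yr (fun a => ¬ AdmIn s t a) t c R i j k l) + yr (fun a => ¬ AdmIn s t a) t c R =
      fun i j k l => - R i j k l := by
    funext i j k l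
    simp only [Pi.add_apply]
    ring
  rw [h1, ← gaussBonnet_eq_mgb, ← gaussBonnet_eq_mgb, A8_neg] at hm
  exact hm

theorem S10_nonneg {n : ℕ} {R : Arr (2 * n)} (hR : IsAlgCurv R) (hC : Clus R) (hK : KB 0 R) : 0 ≤ (-1) ^ n * gaussBonnet n R := by
  obtain ⟨o, t, ho, hle⟩ := S10_ge hR hC le_rfl hK
  exact (S3_nonneg (S9_alg hR o t 0) (S9_psd le_rfl ho)).trans hle

theorem S10_strict (n : ℕ) {c : ℝ} (hc : 0 < c) (C : ℝ) :
    ∃ ε : ℝ, 0 < ε ∧ ∀ R : Arr (2 * n), IsAlgCurv R → Clus R → KB c R → (∀ i j k l, |R i j k l| ≤ C) → ε ≤ (-1) ^ n * gaussBonnet n R := by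
  obtain ⟨ε, he, h⟩ := S7 n hc (C + c)
  refine ⟨ε, he, fun R hR hC hK hB => ?_⟩
  obtain ⟨o, t, ho, hle⟩ := S10_ge hR hC hc.le hK
  exact (h _ (S9_alg hR o t c) (S9_psd hc.le ho) (fun v w => S9_sec hK v w) fun i j k l => S9_bd hB hc.le i j k l).trans hle

end H56F
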