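import Pool.Agent.Lib.H56F.S0
import Pool.Agent.Lib.H56E.A6
import Pool.Agent.Lib.H56E.A7
import Pool.Agent.Lib.H56E.A8

/-!
# S12: the strict inequality for clusters

`yy t B c` = the blocks `B a` on the clusters, `c idA` between different clusters. If the blocks are strictly positive (`SPos`) and `c > 0` then the Gauss-Bonnet integrand of `yy t B c` is positive: as long as there are two clusters replace one entry by
the square of `e_i ∧ e_j`, `i`, `j` in different clusters.
-/

set_option autoImplicit false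

open Finset

namespace H56F

open Pool.Agent.H69Hopf
open H56E
open H30K (KB Cyc)

/-- as `H56E.Pos`, strict -/
structure SPos {N : ℕ} (s t : Fin N → ℕ) (B : ℕ → Arr N) : Prop where
  sup : ∀ a, InC t a (B a)
  pos : ∀ (a r : ℕ) (v : Fin (2 * r) → (Fin N → ℝ)), ONF v → (∀ k, Cls s (v k)) → (∀ k i, v k i ≠ 0 → t i = a) → 0 < gaussBonnet r (pull v (B a))

theorem SPos.weak {N : ℕ} {s t : Fin N → ℕ} {B : ℕ → Arr N} (h : SPos s t B) : Pos s t B :=
  ⟨h.sup, fun a r v h1 h2 h3 => (h.pos a r v h1 h2 h3).le⟩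

/-- the blocks on the clusters, `c idA` between different clusters -/
noncomputable def yy {N : ℕ} (t : Fin N → ℕ) (B : ℕ → Arr N) (c : ℝ) : Arr N := fun i j k l =>
  if t i = t j ∧ t j = t k ∧ t k = t l then B (t i) i j k l else c * idA N i j k l

theorem s12_idA {M N : ℕ} {f : Fin M → Fin N} (hf : Function.Injective f) (i j k l : Fin M) : idA N (f i) (f j) (f k) (f l) = idA M i j k l := by
  unfold idA
  simp only [hf.eq_iff]

theorem s12_rs {M N : ℕ} {f : Fin M → Fin N} (hf : Function.Injective f) (t : Fin N → ℕ) (B : ℕ → Arr N) (c : ℝ) :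
    rs f (yy t B c) = yy (fun k => t (f k)) (fun a => rs f (B a)) c := by
  funext i j k l
  show yy t B c (f i) (f j) (f k) (f l) = _
  unfold yy
  rw [s12_idA hf]
  rfl

theorem s12_spos {M N : ℕ} {s t : Fin N → ℕ} {B : ℕ → Arr N} (hr : Ref s t) (hB : SPos s t B) {f : Fin M → Fin N} (hf : Function.Injective f) :
    SPos (fun k => s (f k)) (fun k => t (f k)) (fun a => rs f (B a)) := by
  refine ⟨fun a i j k l hne => hB.sup a _ _ _ _ hne, fun a r v hv hc ht => ?_⟩
  have hg := A2_ei (s := s) hf
  show 0 < gaussBonnet r (pull v (rs f (B a)))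
  rw [A2_rs, A2_pull]
  refine hB.pos a r (fun k => comb (fun k => ei (f k)) (v k)) (A2_onf hv hg.1) (fun k => ?_) (fun k i hi => ?_)
  · intro i j hi hj
    obtain ⟨p, hp, hp'⟩ := a2_comb_ne hg.2 hi
    obtain ⟨q, hq, hq'⟩ := a2_comb_ne hg.2 hj
    rw [hp', hq']
    exact hc k p q hp hq
  · obtain ⟨p, hp, hp'⟩ := a2_comb_ne hg.2 hi
    exact (hr _ _ hp').trans (ht k p hp)

theorem s12_sum2 {N : ℕ} (x y : Fin N) (G : Fin N → Fin N → ℝ) : ∑ p, ∑ q, (if x = p then (1:ℝ) else 0) * (if y = q then 1 else 0) * G p q = G x y := by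
  rw [Finset.sum_eq_single x, Finset.sum_eq_single y]
  · rw [if_pos rfl, if_pos rfl, one_mul, one_mul]
  · intro q _ hq
    rw [if_neg (Ne.symm hq), mul_zero, zero_mul]
  · intro h
    exact absurd (Finset.mem_univ _) h
  · intro p _ hp
    refine Finset.sum_eq_zero fun q _ => ?_
    rw [if_neg (Ne.symm hp), zero_mul, zero_mul]
  · intro h
    exact absurd (Finset.mem_univ _) h

/-- the part of `yy` with the pairs `D` -/
theorem s12_mem {N : ℕ} (s t : Fin N → ℕ) {B : ℕ → Arr N} (hB : ∀ a, InC t a (B a)) {c : ℝ} (hc : 0 ≤ c) (D : Fin N → Fin N → Prop) [DecidableRel D] (hD : ∀ i j, D i j → D j i) :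
    (fun i j k l => if t i = t j ∧ t j = t k ∧ t k = t l then B (t i) i j k l else if D i j then c * idA N i j k l else 0) ∈ AddSubmonoid.closure (GenS s B) := by
  have e : (fun i j k l => if t i = t j ∧ t j = t k ∧ t k = t l then B (t i) i j k l else if D i j then c * idA N i j k l else 0) =
      ∑ a ∈ Finset.univ.image t, B a + ∑ p : Fin N, ∑ q : Fin N, if t p ≠ t q ∧ D p q then sqf (ei p) (Real.sqrt (c / 2) • ei q) else 0 := by
    funext i j k l
    have h1 : (∑ a ∈ Finset.univ.image t, B a + ∑ p : Fin N, ∑ q : Fin N, if t p ≠ t q ∧ D p q then sqf (ei p) (Real.sqrt (c / 2) • ei q) else 0) i j k l =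
        ∑ a ∈ Finset.univ.image t, B a i j k l + ∑ p : Fin N, ∑ q : Fin N, if t p ≠ t q ∧ D p q then sqf (ei p) (Real.sqrt (c / 2) • ei q) i j k l else 0 := by
      simp only [Pi.add_apply, Finset.sum_apply]
      refine congrArg₂ (fun x y => x + y) rfl ?_
      refine Finset.sum_congr rfl fun p _ => Finset.sum_congr rfl fun q _ => ?_
      split_ifs <;> rfl
    have h2 : ∑ a ∈ Finset.univ.image t, B a i j k l = if t i = t j ∧ t j = t k ∧ t k = t l then B (t i) i j k l else 0 := by
      rw [Finset.sum_eq_single (t i)]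
      · by_cases h : t i = t j ∧ t j = t k ∧ t k = t l
        · rw [if_pos h]
        · rw [if_neg h]
          by_contra hne
          obtain ⟨-, g2, g3, g4⟩ := hB _ _ _ _ _ hne
          exact h ⟨g2.symm, g2.trans g3.symm, g3.trans g4.symm⟩
      · intro a _ ha
        by_contra hne
        exact ha (hB _ _ _ _ _ hne).1.symm
      · intro h
        exact absurd (Finset.mem_image_of_mem t (Finset.mem_univ i)) h
    have h3 : ∀ p q : Fin N, sqf (ei p) (Real.sqrt (c / 2) • ei q) i j k l = (c / 2) *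
        (((if i = p then (1:ℝ) else 0) * (if j = q then 1 else 0) - (if j = p then 1 else 0) * (if i = q then 1 else 0)) *
        ((if k = p then (1:ℝ) else 0) * (if l = q then 1 else 0) - (if l = p then 1 else 0) * (if k = q then 1 else 0))) := by
      intro p q
      have hs : Real.sqrt (c / 2) * Real.sqrt (c / 2) = c / 2 := Real.mul_self_sqrt (by positivity)
      unfold sqf
      simp only [Pi.smul_apply, ei, Pi.single_apply, smul_eq_mul]
      linear_combination (((if i = p then (1:ℝ) else 0) * (if j = q then 1 else 0) - (if j = p then 1 else 0) * (if i = q then 1 else 0)) *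
        ((if k = p then (1:ℝ) else 0) * (if l = q then 1 else 0) - (if l = p then 1 else 0) * (if k = q then 1 else 0))) * hs
    obtain ⟨E, hE⟩ : ∃ E : Fin N → Fin N → ℝ, ∀ p q, E p q = if t p ≠ t q ∧ D p q then (1:ℝ) else 0 := ⟨_, fun _ _ => rfl⟩
    have hEs : ∀ p q, E p q = E q p := by
      intro p q
      rw [hE, hE]
      by_cases h : t p ≠ t q ∧ D p q
      · rw [if_pos h, if_pos ⟨h.1.symm, hD _ _ h.2⟩]
      · rw [if_neg h, if_neg fun h' => h ⟨h'.1.symm, hD _ _ h'.2⟩]
    have h4 : ∑ p : Fin N, ∑ q : Fin N, (if t p ≠ t q ∧ D p q then sqf (ei p) (Real.sqrt (c / 2) • ei q) i j k l else 0) = c * E i j * idA N i j k l := by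
      obtain ⟨G, hG⟩ : ∃ G : Fin N → Fin N → ℝ, ∀ p q, G p q = (c / 2) * E p q * ((if k = p then (1:ℝ) else 0) * (if l = q then 1 else 0) - (if l = p then 1 else 0) * (if k = q then 1 else 0)) :=
        ⟨_, fun _ _ => rfl⟩
      have h5 : ∀ p q : Fin N, (if t p ≠ t q ∧ D p q then sqf (ei p) (Real.sqrt (c / 2) • ei q) i j k l else 0) =
          (if i = p then (1:ℝ) else 0) * (if j = q then 1 else 0) * G p q - (if j = p then (1:ℝ) else 0) * (if i = q then 1 else 0) * G p q := by
        intro p q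
        rw [h3, hG, hE]
        by_cases hd : t p ≠ t q ∧ D p q
        · rw [if_pos hd, if_pos hd]
          ring
        · rw [if_neg hd, if_neg hd]
          ring
      simp only [h5, Finset.sum_sub_distrib]
      rw [s12_sum2, s12_sum2, hG, hG, hEs j i]
      unfold idA
      have hs : ∀ x y : Fin N, (if x = y then (1:ℝ) else 0) = if y = x then 1 else 0 := fun x y => by
        by_cases hh : x = y
        · rw [if_pos hh, if_pos hh.symm]
        · rw [if_neg hh, if_neg (fun h' => hh h'.symm)]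
      rw [hs k i, hs l j, hs l i, hs k j]
      ring
    rw [h1, h2, h4, hE]
    by_cases h : t i = t j ∧ t j = t k ∧ t k = t l
    · rw [if_pos h, if_pos h, if_neg fun h' => h'.1 h.1]
      ring
    · rw [if_neg h, if_neg h]
      by_cases h6 : idA N i j k l = 0
      · rw [h6]
        simp
      · have h7 : t i ≠ t j := by
          intro h8
          apply h6
          unfold idA
          have h9 : ¬ (i = k ∧ j = l) := fun h10 => h ⟨h8, by rw [← h10.1, h8], by rw [← h10.1, ← h10.2, h8]⟩
          have h11 : ¬ (i = l ∧ j = k) := fun h10 => h ⟨h8, by rw [← h10.2], by rw [← h10.1, ← h10.2, h8]⟩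
          have h12 : ∀ P Q : Prop, ∀ [Decidable P] [Decidable Q], ¬ (P ∧ Q) → (if P then (1:ℝ) else 0) * (if Q then 1 else 0) = 0 := by
            intro P Q _ _ hPQ
            by_cases hP : P
            · rw [if_neg (fun hQ => hPQ ⟨hP, hQ⟩), mul_zero]
            · rw [if_neg hP, zero_mul]
          rw [h12 _ _ h9, h12 _ _ h11, sub_zero]
        by_cases h8 : D i j
        · rw [if_pos h8, if_pos ⟨h7, h8⟩]
          ring
        · rw [if_neg h8, if_neg fun h' => h8 h'.2]
          ring
  rw [e]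
  refine AddSubmonoid.add_mem _ (AddSubmonoid.sum_mem _ fun a _ => AddSubmonoid.subset_closure (Or.inl ⟨a, rfl⟩)) ?_
  refine AddSubmonoid.sum_mem _ fun p _ => AddSubmonoid.sum_mem _ fun q _ => ?_
  split_ifs
  · refine AddSubmonoid.subset_closure (Or.inr ⟨ei p, Real.sqrt (c / 2) • ei q, ?_, A8_cls s q _, rfl⟩)
    have h2 := A8_cls s p 1
    rwa [one_smul] at h2
  · exact AddSubmonoid.zero_mem _

theorem s12_val {N : ℕ} {i0 j0 : Fin N} (hne : i0 ≠ j0) (i j k l : Fin N) :
    sqf (ei i0) (ei j0) i j k l = if ((i = i0 ∧ j = j0) ∨ (i = j0 ∧ j = i0)) then idA N i j k l else 0 := by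
  have hs : ∀ x y : Fin N, (if x = y then (1:ℝ) else 0) = if y = x then 1 else 0 := fun x y => by
    by_cases hh : x = y
    · rw [if_pos hh, if_pos hh.symm]
    · rw [if_neg hh, if_neg (fun h' => hh h'.symm)]
  unfold sqf idA
  simp only [ei, Pi.single_apply]
  by_cases h1 : i = i0 ∧ j = j0
  · obtain ⟨rfl, rfl⟩ := h1
    rw [if_pos (Or.inl ⟨rfl, rfl⟩), if_pos rfl, if_pos rfl, if_neg hne.symm, if_neg hne, hs i k, hs j l, hs i l, hs j k]
    ring
  · by_cases h2 : i = j0 ∧ j = i0
    · obtain ⟨rfl, rfl⟩ := h2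
      rw [if_pos (Or.inr ⟨rfl, rfl⟩), if_neg hne.symm, if_neg hne, if_pos rfl, if_pos rfl, hs i k, hs j l, hs i l, hs j k]
      ring
    · rw [if_neg (c := (i = i0 ∧ j = j0) ∨ (i = j0 ∧ j = i0)) (fun h => h.elim h1 h2)]
      have h12 : ∀ P Q : Prop, ∀ [Decidable P] [Decidable Q], ¬ (P ∧ Q) → (if P then (1:ℝ) else 0) * (if Q then 1 else 0) = 0 := by
        intro P Q _ _ hPQ
        by_cases hP : P
        · rw [if_neg (fun hQ => hPQ ⟨hP, hQ⟩), mul_zero]
        · rw [if_neg hP, zero_mul]
      rw [h12 _ _ h1, h12 _ _ (fun h => h2 ⟨h.2, h.1⟩), sub_zero, zero_mul]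

theorem s12_perm {m : ℕ} {i0 j0 : Fin (2 * m + 1 + 1)} (h : i0 ≠ j0) : ∃ ρ : Equiv.Perm (Fin (2 * m + 1 + 1)), ρ 0 = i0 ∧ ρ 1 = j0 := by
  have h1 : Equiv.swap 0 i0 j0 ≠ 0 := by
    intro h2
    apply h
    have h3 := congrArg (Equiv.swap 0 i0) h2
    rw [Equiv.swap_apply_self, Equiv.swap_apply_left] at h3
    exact h3.symm
  have h10 : (1 : Fin (2 * m + 1 + 1)) ≠ 0 := by
    intro h2
    have h3 := congrArg Fin.val h2
    simp at h3
  refine ⟨Equiv.swap 0 i0 * Equiv.swap 1 (Equiv.swap 0 i0 j0), ?_, ?_⟩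
  · rw [Equiv.Perm.mul_apply, Equiv.swap_apply_of_ne_of_ne h10.symm h1.symm, Equiv.swap_apply_left]
  · rw [Equiv.Perm.mul_apply, Equiv.swap_apply_left, Equiv.swap_apply_self]

theorem S12 (n : ℕ) : ∀ (s t : Fin (2 * n) → ℕ) (B : ℕ → Arr (2 * n)) (c : ℝ), Ref s t → SPos s t B → 0 < c → 0 < gaussBonnet n (yy t B c) := by
  induction n with
  | zero =>
    intro s t B c _ _ _
    unfold gaussBonnet
    simp
  | succ m ih =>
    intro s t B c hr hB hc
    by_cases hall : ∀ i, t i = t ⟨0, by omega⟩
    · have e : yy t B c = rs id (B (t ⟨0, by omega⟩)) := by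
        funext i j k l
        unfold yy
        rw [if_pos ⟨by rw [hall i, hall j], by rw [hall j, hall k], by rw [hall k, hall l]⟩, hall i]
        rfl
      have hg := A2_ei (s := s) (f := (id : Fin (2 * (m + 1)) → Fin (2 * (m + 1)))) Function.injective_id
      rw [e, A2_rs]
      refine hB.pos _ _ _ hg.1 (fun k i j hi hj => ?_) fun k i hi => ?_
      · rw [hg.2 k i hi, hg.2 k j hj]
      · exact hall i
    · obtain ⟨j0, hj0⟩ := not_forall.1 hall
      obtain ⟨i0, hi0⟩ : ∃ i0 : Fin (2 * (m + 1)), i0 = ⟨0, by omega⟩ := ⟨_, rfl⟩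
      rw [← hi0] at hj0
      have hne : i0 ≠ j0 := fun h => hj0 (by rw [h])
      obtain ⟨ρ, hρ0, hρ1⟩ := s12_perm (m := m) (i0 := i0) (j0 := j0) hne
      -- the entry
      obtain ⟨T0, hT0⟩ : ∃ T0 : Arr (2 * (m + 1)), T0 = fun i j k l => c * sqf (ei i0) (ei j0) i j k l := ⟨_, rfl⟩
      have hval := s12_val (N := 2 * (m + 1)) hne
      obtain ⟨X, hX⟩ : ∃ X : Arr (2 * (m + 1)), X = fun i j k l => if t i = t j ∧ t j = t k ∧ t k = t l then B (t i) i j k l else if ¬ ((i = i0 ∧ j = j0) ∨ (i = j0 ∧ j = i0)) then c * idA (2 * (m + 1)) i j k l else 0 := ⟨_, rfl⟩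
      have hXm : X ∈ AddSubmonoid.closure (GenS s B) := by
        rw [hX]
        refine s12_mem s t hB.sup hc.le (fun i j => ¬ ((i = i0 ∧ j = j0) ∨ (i = j0 ∧ j = i0))) fun i j h h' => h ?_
        rcases h' with h' | h'
        · exact Or.inr ⟨h'.2, h'.1⟩
        · exact Or.inl ⟨h'.2, h'.1⟩
      have hYm : yy t B c ∈ AddSubmonoid.closure (GenS s B) := by
        have h1 := s12_mem s t hB.sup hc.le (fun _ _ => True) fun _ _ _ => trivial
        simp only [if_true] at h1
        exact h1
      have hsum : X + T0 = yy t B c := by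
        funext i j k l
        rw [hX, hT0]
        simp only [Pi.add_apply, hval]
        unfold yy
        by_cases h : t i = t j ∧ t j = t k ∧ t k = t l
        · have h2 : ¬ ((i = i0 ∧ j = j0) ∨ (i = j0 ∧ j = i0)) := by
            rintro (h2 | h2)
            · exact hj0 (by rw [← h2.1, ← h2.2, h.1])
            · exact hj0 (by rw [← h2.1, ← h2.2, h.1])
          rw [if_pos h, if_pos h, if_neg h2]
          ring
        · rw [if_neg h, if_neg h]
          by_cases h2 : ((i = i0 ∧ j = j0) ∨ (i = j0 ∧ j = i0))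
          · rw [if_neg (not_not.2 h2), if_pos h2]
            ring
          · rw [if_pos h2, if_neg h2]
            ring
      have hge : mgb (Function.update (fun _ : Fin (m + 1) => yy t B c) 0 T0) ≤ gaussBonnet (m + 1) (yy t B c) := by
        have e1 : (fun _ : Fin (m + 1) => yy t B c) = Function.update (fun _ : Fin (m + 1) => yy t B c) 0 (X + T0) := by
          rw [hsum]
          exact (Function.update_eq_self _ _).symm
        have h1 : gaussBonnet (m + 1) (yy t B c) = mgb (Function.update (fun _ : Fin (m + 1) => yy t B c) 0 (X + T0)) := by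
          rw [gaussBonnet_eq_mgb]
          exact congrArg mgb e1
        rw [h1, A7_add]
        have h2 : 0 ≤ mgb (Function.update (fun _ : Fin (m + 1) => yy t B c) 0 X) := by
          refine A7_closure (A6 (m + 1) s t B hr hB.weak) fun i => ?_
          by_cases h : i = 0
          · rw [h, Function.update_self]; exact hXm
          · rw [Function.update_of_ne h]; exact hYm
        linarith
      refine lt_of_lt_of_le ?_ hge
      rw [a3_front (m := m) _ 0, Function.update_self]
      have e2 : (fun i : Fin m => Function.update (fun _ : Fin (m + 1) => yy t B c) 0 T0 (Equiv.swap 0 0 i.succ)) = fun _ => yy t B c := by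
        funext i
        rw [Equiv.swap_self, Equiv.refl_apply, Function.update_of_ne (Fin.succ_ne_zero i)]
      have e3 := a3_scal (m := m) T0 (sqf (ei i0) (ei j0)) c (fun i j k l => by rw [hT0]) (fun _ => yy t B c)
      have e4 := A3_cons (m := m) (fun _ => yy t B c) (ei i0) (ei j0)
      have hg := A2_ei (s := s) (f := (fun k => ρ k : Fin (2 * m + 1 + 1) → Fin (2 * m + 1 + 1))) ρ.injective
      have e5 := H56C.L3 (m := m) (fun _ => yy t B c) hg.1
      have e6 : 0 < gaussBonnet m (rs (fun k : Fin (2 * m) => ρ k.succ.succ) (yy t B c)) := by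
        have hinj : Function.Injective (fun k : Fin (2 * m) => ρ k.succ.succ) := fun x y h =>
          Fin.succ_injective _ (Fin.succ_injective _ (ρ.injective h))
        rw [s12_rs hinj]
        exact ih _ _ _ c (fun i j h => hr _ _ h) (s12_spos hr hB hinj) hc
      rw [A2_rs, gaussBonnet_eq_mgb] at e6
      simp only [hρ0, hρ1] at e5
      rw [e5] at e4
      rw [e4] at e3
      have e7 : consM T0 (fun i : Fin m => Function.update (fun _ : Fin (m + 1) => yy t B c) 0 T0 (Equiv.swap 0 0 i.succ)) = consM T0 (fun _ : Fin m => yy t B c) := congrArg (consM T0) e2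
      refine lt_of_lt_of_eq ?_ (e7.trans e3).symm
      positivity

end H56F
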