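import Pool.Agent.Lib.H56F.St
import Pool.Agent.Lib.H56F.S10
import Pool.Agent.Lib.H56F.S12
import Pool.Agent.Lib.H46X.B2
import Pool.Agent.Lib.H2K.KC6

/-!
# S14: the classes of clusters; the pointwise theorem for `Clust`
-/

set_option autoImplicit false

open Finset

namespace H56F

open Pool.Agent.H69Hopf
open Pool.Agent.H46X (pinchConst pointwise gb_null)
open H56E
open H30K (KB Cyc)

/-- `(-1) ^ r` times the Gauss-Bonnet integrand is `≥ 0` on the subspaces of the cluster spanned by orthonormal vectors supported in classes, and `> 0` if all sectional curvatures are negative -/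
def GbIn {N : ℕ} (R : Arr N) (s t : Fin N → ℕ) (a : ℕ) : Prop :=
  ∀ (r : ℕ) (v : Fin (2 * r) → (Fin N → ℝ)), ONF v → (∀ k, Cls s (v k)) → (∀ k i, v k i ≠ 0 → t i = a) →
    0 ≤ gaussBonnet r (pull v fun i j k l => - R i j k l) ∧ ∀ c : ℝ, 0 < c → KB c R → 0 < gaussBonnet r (pull v fun i j k l => - R i j k l)

theorem s14_neg {M N : ℕ} (v : Fin M → (Fin N → ℝ)) (R : Arr N) : (pull v fun i j k l => - R i j k l) = fun i j k l => - pull v R i j k l := by
  funext i j k l
  unfold pull ev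
  simp only [neg_mul, Finset.sum_neg_distrib]

theorem s14_gb {r N : ℕ} (v : Fin (2 * r) → (Fin N → ℝ)) (R : Arr N) : gaussBonnet r (pull v fun i j k l => - R i j k l) = (-1) ^ r * gaussBonnet r (pull v R) := by
  rw [s14_neg, A8_neg]

/-- nonpositive curvature is enough in dimension at most four -/
theorem s14_small {r : ℕ} (hr : r ≤ 2) {R : Arr (2 * r)} (hR : IsAlgCurv R) {c : ℝ} (hc : 0 ≤ c) (hK : KB c R) : 4 ^ r * (r.factorial : ℝ) * c ^ r ≤ (-1) ^ r * gaussBonnet r R := by
  refine H56D.PT r R hR (fun _ => (0 : ℝ)) (fun i j k l => by simp) (Or.inl ⟨fun _ _ _ _ => rfl, fun i => ?_⟩) c hc hK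
  refine (Finset.card_filter_le _ _).trans ?_
  rw [Finset.card_univ, Fintype.card_fin]
  omega

theorem s14_adm {N : ℕ} {R : Arr N} (hR : IsAlgCurv R) {s t : Fin N → ℕ} (hT : ∀ i j k l, R i j k l ≠ 0 → (s i = s k ∧ s j = s l) ∨ (s i = s l ∧ s j = s k))
    (hK0 : KB 0 R) {a : ℕ} (hA : AdmIn s t a) : GbIn R s t a := by
  have key : ∀ c : ℝ, 0 ≤ c → KB c R → ∀ (r : ℕ) (v : Fin (2 * r) → (Fin N → ℝ)), ONF v → (∀ k, Cls s (v k)) → (∀ k i, v k i ≠ 0 → t i = a) →
      4 ^ r * (r.factorial : ℝ) * c ^ r ≤ gaussBonnet r (pull v fun i j k l => - R i j k l) := by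
    intro c hc hK r v hv hcls hsup
    obtain ⟨f, hf, hfn⟩ := A12_inj hv
    have hPc := H56C.L4_cyc (A12_cyc hR hT) (v := v) (f := f) (fun k j hkj => by
      show ((s j : ℕ) : ℝ) = ((s (f k) : ℕ) : ℝ)
      rw [hcls k j (f k) hkj (hfn k)])
    have hPA := A12_adm hA hf (fun k => hsup k (f k) (hfn k))
    rw [s14_gb]
    exact H56D.PT r _ (H56C.L4_alg hR v) _ hPc hPA c hc (H56C.L4_kb hK hv)
  intro r v hv hcls hsup
  refine ⟨le_trans ?_ (key 0 le_rfl hK0 r v hv hcls hsup), fun c hc hK => lt_of_lt_of_le ?_ (key c hc.le hK r v hv hcls hsup)⟩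
  · positivity
  · positivity

theorem s14_op {N : ℕ} {R : Arr N} (hR : IsAlgCurv R) {s t : Fin N → ℕ} {a : ℕ} (hA : OpIn R t a) : GbIn R s t a := by
  intro r v hv hcls hsup
  refine ⟨S3_nonneg (H56C.L4_alg (s10_neg hR) v) (s10_op hA hsup), fun c hc hK => ?_⟩
  refine S6 (H56C.L4_alg (s10_neg hR) v) (s10_op hA hsup) fun x y hxy => ?_
  have h1 := H56C.L4_kb hK hv x y
  have h2 := s7_area2_pos hxy
  rw [s14_neg, ev_neg]
  have h3 : 0 < c * area2 x y := mul_pos hc h2
  linarith

theorem s14_cc {N : ℕ} {R : Arr N} (hR : IsAlgCurv R) {s t : Fin N → ℕ} {a : ℕ} (hA : CcIn R t a) : GbIn R s t a := by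
  intro r v hv hcls hsup
  have hcd := k1_card hv hsup
  have h7 := hA.1
  have hCK : ∀ z w : Fin 1 → Fin (2 * r) → ℂ, H2K.complexCurvK (pull v R) z w ≤ 0 := by
    intro z w
    rw [k1_pull]
    have h1 := hA.2 (fun p => ∑ i, z 0 i * (v i p : ℂ)) (fun p => ∑ i, w 0 i * (v i p : ℂ)) (by
      intro i hi
      have h0 : ∀ j, v j i = 0 := fun j => by
        by_contra hne
        exact hi (hsup j i hne)
      constructor
      · exact Finset.sum_eq_zero fun j _ => by rw [h0 j, Complex.ofReal_zero, mul_zero]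
      · exact Finset.sum_eq_zero fun j _ => by rw [h0 j, Complex.ofReal_zero, mul_zero])
    unfold H2K.complexCurvK
    simp only [Finset.univ_unique, Fin.default_eq_zero, Finset.sum_singleton]
    exact h1
  rw [s14_gb]
  refine ⟨(H2K.f1_point H2K.kc6_six r 1 le_rfl (by omega) _ (H56C.L4_alg hR v) hCK).1, fun c hc hK => ?_⟩
  rcases Nat.lt_or_ge r 3 with hr | hr
  · refine lt_of_lt_of_le ?_ (s14_small (by omega) (H56C.L4_alg hR v) hc.le (H56C.L4_kb hK hv))
    positivity
  · obtain rfl : r = 3 := by omega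
    have h1 := H2K.kc6_neg 1 le_rfl (pull v R) (H56C.L4_alg hR v) hCK (fun x y hxy => by
      have h2 := H56C.L4_kb hK hv x y
      have h3 := s7_area2_pos hxy
      have h4 : 0 < c * area2 x y := mul_pos hc h3
      show ev (pull v R) x y x y < 0
      linarith)
    have h2 : ((-1 : ℝ)) ^ 3 = -1 := by norm_num
    rw [h2]
    linarith

theorem s14_pc {r n : ℕ} (hr : 3 ≤ r) (hrn : r ≤ n) : pinchConst r ≤ pinchConst n := by
  have h3 : (3 : ℝ) ≤ r := by exact_mod_cast hr
  have hn : (r : ℝ) ≤ n := by exact_mod_cast hrn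
  unfold pinchConst
  refine min_le_min (min_le_min ?_ ?_) ?_
  · rw [div_le_div_iff₀ (by nlinarith) (by nlinarith)]
    nlinarith [mul_nonneg (sub_nonneg.2 hn) (sub_nonneg.2 h3), mul_nonneg (sub_nonneg.2 hn) (mul_nonneg (by linarith : (0:ℝ) ≤ r) (by linarith : (0:ℝ) ≤ n))]
  · have h1 : √(2 * (r : ℝ) + 2) ≤ √(2 * (n : ℝ) + 2) := Real.sqrt_le_sqrt (by linarith)
    have h2 : 0 < √(2 * (r : ℝ) + 2) := Real.sqrt_pos.2 (by linarith)
    have h4 : 1 / (37 * √(2 * (n : ℝ) + 2)) ≤ 1 / (37 * √(2 * (r : ℝ) + 2)) := one_div_le_one_div_of_le (by positivity) (by linarith)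
    linarith
  · have h1 : Real.log r ≤ Real.log n := Real.log_le_log (by linarith) hn
    have h2 : 0 ≤ Real.log r := Real.log_nonneg (by linarith)
    have h4 : 1 / (10 ^ 13 * (1 + Real.log n) ^ 3) ≤ 1 / (10 ^ 13 * (1 + Real.log r) ^ 3) := by
      refine one_div_le_one_div_of_le (by positivity) ?_
      have h5 : (1 + Real.log r) ^ 3 ≤ (1 + Real.log n) ^ 3 := pow_le_pow_left₀ (by linarith) (by linarith) 3
      linarith
    linarith

theorem s14_pin {N : ℕ} {R : Arr N} (hR : IsAlgCurv R) {s t : Fin N → ℕ} {a : ℕ} (hK0 : KB 0 R) (hA : PinIn R t a) : GbIn R s t a := by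
  intro r v hv hcls hsup
  have hcd := k1_card hv hsup
  obtain ⟨A, hA0, hA⟩ := hA
  rw [s14_gb]
  rcases Nat.lt_or_ge r 3 with hr | hr
  · refine ⟨le_trans ?_ (s14_small (by omega) (H56C.L4_alg hR v) le_rfl (H56C.L4_kb hK0 hv)), fun c hc hK =>
      lt_of_lt_of_le ?_ (s14_small (by omega) (H56C.L4_alg hR v) hc.le (H56C.L4_kb hK hv))⟩
    · positivity
    · positivity
  · have hsec : ∀ x y : Fin (2 * r) → ℝ, -(A * area2 x y) ≤ ev (pull v R) x y x y ∧
        ev (pull v R) x y x y ≤ -(pinchConst ((Finset.univ.filter fun i => t i = a).card / 2) * A * area2 x y) := by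
      intro x y
      have h1 := hA (comb v x) (comb v y) (by
        intro i hi
        have h0 : ∀ j, v j i = 0 := fun j => by
          by_contra hne
          exact hi (hsup j i hne)
        constructor
        · exact Finset.sum_eq_zero fun j _ => by rw [h0 j, mul_zero]
        · exact Finset.sum_eq_zero fun j _ => by rw [h0 j, mul_zero])
      rw [ev_comb, area2_eq, dot_comb hv, dot_comb hv, dot_comb hv, ← area2_eq] at h1
      exact h1
    rcases hA0.lt_or_eq with hA1 | hA1
    · have h1 : 0 < (-1) ^ r * gaussBonnet r (pull v R) := by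
        refine (pointwise r hr _ (H56C.L4_alg hR v) (pinchConst r * A) A hA1 le_rfl).1 fun x y => ?_
        obtain ⟨h1, h2⟩ := hsec x y
        refine ⟨by linarith, h2.trans ?_⟩
        have h3 : pinchConst r ≤ pinchConst ((Finset.univ.filter fun i => t i = a).card / 2) := s14_pc hr (by omega)
        have h4 : pinchConst r * A * area2 x y ≤ pinchConst ((Finset.univ.filter fun i => t i = a).card / 2) * A * area2 x y :=
          mul_le_mul_of_nonneg_right (mul_le_mul_of_nonneg_right h3 hA1.le) (area2_nonneg x y)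
        linarith
      exact ⟨h1.le, fun _ _ _ => h1⟩
    · subst hA1
      have hz : ∀ x y : Fin (2 * r) → ℝ, ev (pull v R) x y x y = 0 := by
        intro x y
        obtain ⟨h1, h2⟩ := hsec x y
        rw [zero_mul, neg_zero] at h1
        rw [mul_zero, zero_mul, neg_zero] at h2
        exact le_antisymm h2 h1
      have hu : (Pi.single (⟨0, by omega⟩ : Fin (2 * r)) (1 : ℝ) : Fin (2 * r) → ℝ) ≠ 0 := by
        intro h
        have h1 := congrFun h ⟨0, by omega⟩
        simp at h1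
      refine ⟨?_, fun c hc hK => ?_⟩
      · rw [gb_null r (H56C.L4_alg hR v) _ hu fun x y => ⟨0, fun s => by rw [hz, abs_zero]⟩, mul_zero]
      · exfalso
        have h1 := H56C.L4_kb hK hv (Pi.single (⟨0, by omega⟩ : Fin (2 * r)) (1 : ℝ)) (Pi.single (⟨1, by omega⟩ : Fin (2 * r)) (1 : ℝ))
        have h2 : area2 (Pi.single (⟨0, by omega⟩ : Fin (2 * r)) (1 : ℝ) : Fin (2 * r) → ℝ) (Pi.single (⟨1, by omega⟩ : Fin (2 * r)) (1 : ℝ)) = 1 := by
          simp [area2, Pi.single_apply]
        rw [hz, h2] at h1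
        linarith

/-- the pointwise theorem, nonpositive curvature -/
theorem S14_gen {n : ℕ} {R : Arr (2 * n)} (hR : IsAlgCurv R) {s t : Fin (2 * n) → ℕ} {P : ℕ → Fin (2 * n) → Fin (2 * n) → ℝ} (hr : Ref s t)
    (hT : ∀ i j k l, R i j k l ≠ 0 → (s i = s k ∧ s j = s l) ∨ (s i = s l ∧ s j = s k))
    (hP : ∀ i j k l, t i ≠ t j → s i = s k → s j = s l → R i j k l = (if i = k then P (s i) j l else 0) + (if j = l then P (s j) i k else 0))
    (hK0 : KB 0 R) (hG : ∀ a, GbIn R s t a) : 0 ≤ (-1) ^ n * gaussBonnet n R ∧ ∀ c : ℝ, 0 < c → KB c R → 0 < (-1) ^ n * gaussBonnet n R := by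
  have hbo : ∀ c : ℝ, bo (fun _ => True) t c R = fun a => H56E.blk t a (fun i j k l => - R i j k l) := fun c => by
    funext a
    unfold bo
    rw [if_pos trivial]
  have hsup : ∀ a, InC t a (H56E.blk t a (fun i j k l => - R i j k l)) := fun a i j k l hne => by
    by_contra hc
    apply hne
    unfold H56E.blk
    rw [if_neg hc]
  have hpos : Pos s t (fun a => H56E.blk t a (fun i j k l => - R i j k l)) := ⟨hsup, fun a r v h1 h2 h3 => by
    rw [s10_pull _ t a v h3]
    exact (hG a r v h1 h2 h3).1⟩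
  have hS := A6 n s t _ hr hpos
  have hsum : ∀ c : ℝ, (fun i j k l => - R i j k l - yr (fun _ => True) t c R i j k l) + yr (fun _ => True) t c R = fun i j k l => - R i j k l := fun c => by
    funext i j k l
    simp only [Pi.add_apply]
    ring
  refine ⟨?_, fun c hc hK => ?_⟩
  · have hX := S8_x hR (s := s) (t := t) hr hT hP hK0 (fun _ => True)
    have hY := S8_y R s t le_rfl (fun _ => True)
    rw [hbo] at hX hY
    have h0 := AddSubmonoid.add_mem _ hX hY
    rw [hsum 0] at h0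
    have h1 := A7_closure hS (T := fun _ => fun i j k l => - R i j k l) fun _ => h0
    rw [← gaussBonnet_eq_mgb, A8_neg] at h1
    exact h1
  · have hX := S8_x hR (s := s) (t := t) hr hT hP hK (fun _ => True)
    have hY := S8_y R s t hc.le (fun _ => True)
    rw [hbo] at hX hY
    have hm := A7_mono hS hX hY
    rw [hsum, ← gaussBonnet_eq_mgb, ← gaussBonnet_eq_mgb, A8_neg] at hm
    refine lt_of_lt_of_le ?_ hm
    have e : yr (fun _ => True) t c R = yy t (fun a => H56E.blk t a (fun i j k l => - R i j k l)) c := by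
      funext i j k l
      unfold yr yy
      by_cases h : t i = t j ∧ t j = t k ∧ t k = t l
      · rw [if_pos ⟨h, trivial⟩, if_pos h]
        exact (if_pos ⟨rfl, h.1.symm, (h.1.trans h.2.1).symm, (h.1.trans (h.2.1.trans h.2.2)).symm⟩).symm
      · rw [if_neg (fun h' => h h'.1), if_neg h]
    rw [e]
    refine S12 n s t _ c hr ⟨hsup, fun a r v h1 h2 h3 => ?_⟩ hc
    rw [s10_pull _ t a v h3]
    exact (hG a r v h1 h2 h3).2 c hc hK

/-- **The pointwise theorem.** -/
theorem S14 {n : ℕ} {R : Arr (2 * n)} (hR : IsAlgCurv R) (hC : Clust R) (hK0 : KB 0 R) :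
    0 ≤ (-1) ^ n * gaussBonnet n R ∧ ∀ c : ℝ, 0 < c → KB c R → 0 < (-1) ^ n * gaussBonnet n R := by
  obtain ⟨s, t, P, hr, hT, hP, hA⟩ := hC
  refine S14_gen hR hr hT hP hK0 fun a => ?_
  rcases hA a with h | h | h | h
  · exact s14_adm hR hT hK0 h
  · exact s14_op hR h
  · exact s14_cc hR h
  · exact s14_pin hR hK0 h

end H56F
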