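import Pool.Agent.Lib.H56F.S13
import Pool.Agent.Lib.H56F.S14
import Pool.Agent.Lib.H56E.Geo

/-!
# H56F, Geo: closed manifolds with curvature tensors of cluster type on a dense set
-/

set_option autoImplicit false

open scoped ContDiff Topology Manifold
open Set

namespace H56F

open H31R H79G H60E H30K H56C
open Pool.Agent.H69Hopf (Arr IsAlgCurv ev area2)

theorem GF_pt {n : ℕ} {U : Set (EE (2 * n))} {G : EE (2 * n) → Mt (2 * n)} (h : MetOn U G) {y : EE (2 * n)} (hy : y ∈ U)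
    (hK : ∀ E : Mt (2 * n), E.transpose * G y * E = 1 → KB (N := 2 * n) 0 (frR (riem G y) E)) (hA : ClustAt (G y) (riem G y)) :
    0 ≤ (-1) ^ n * pfn G y ∧ ∀ c : ℝ, 0 < c → (∀ E : Mt (2 * n), E.transpose * G y * E = 1 → KB (N := 2 * n) c (frR (riem G y) E)) → 0 < (-1) ^ n * pfn G y := by
  obtain ⟨E, hE, hC⟩ := hA
  have hA1 : IsAlgCurv (N := 2 * n) (riem G y) := riem_algCurv h hy
  have hA2 : IsAlgCurv (N := 2 * n) (frR (riem G y) E) := frR_algCurv hA1 E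
  have h1 := S14 (n := n) hA2 hC (hK E hE)
  have h4 : (0 : ℝ) < 4 ^ n * n.factorial := by positivity
  refine ⟨?_, fun c hc hKc => ?_⟩
  · rw [GA_pf h hy hE, ← mul_div_assoc]
    exact div_nonneg h1.1 h4.le
  · rw [GA_pf h hy hE, ← mul_div_assoc]
    exact div_pos (h1.2 c hc (hKc E hE)) h4

/-- the alternatives on the open set `U` -/
def Alt {n : ℕ} (U : Set (EE (2 * n))) (G : EE (2 * n) → Mt (2 * n)) : Prop :=
  (∃ y ∈ U, ClustAt (G y) (riem G y)) ∨ ∃ b : EE (2 * n) → Mt (2 * n), IsCodazzi G U b ∧ ((∃ y ∈ U, H56D.AdmAt (G y) (b y)) ∨ ∀ y ∈ U, TwoAt (G y) (b y))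

theorem GF_loc {n : ℕ} {U : Set (EE (2 * n))} {G : EE (2 * n) → Mt (2 * n)} (h : MetOn U G)
    (hK : ∀ y ∈ U, ∀ E : Mt (2 * n), E.transpose * G y * E = 1 → KB (N := 2 * n) 0 (frR (riem G y) E)) (hU : U.Nonempty) (hA : Alt U G) :
    ∃ y ∈ U, 0 ≤ (-1) ^ n * pfn G y := by
  rcases hA with ⟨y, hy, hAy⟩ | ⟨b, hb, hA⟩
  · exact ⟨y, hy, (GF_pt h hy (hK y hy) hAy).1⟩
  · obtain ⟨y, hy, h1⟩ := H56D.GA_loc (A := H56D.AC) (H56D.PT n) (fun _ h => H56D.adm_three h) h hb (c := 0) le_rfl hK hU hA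
    exact ⟨y, hy, le_trans (by positivity) h1⟩

theorem GF_loc' {n : ℕ} {U : Set (EE (2 * n))} {G : EE (2 * n) → Mt (2 * n)} (h : MetOn U G) {c : ℝ} (hc : 0 < c)
    (hK : ∀ y ∈ U, ∀ E : Mt (2 * n), E.transpose * G y * E = 1 → KB (N := 2 * n) c (frR (riem G y) E)) (hU : U.Nonempty) (hA : Alt U G) :
    ∃ y ∈ U, 0 < (-1) ^ n * pfn G y := by
  rcases hA with ⟨y, hy, hAy⟩ | ⟨b, hb, hA⟩
  · refine ⟨y, hy, (GF_pt h hy (fun E hE v w => ?_) hAy).2 c hc (hK y hy)⟩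
    have h5 := hK y hy E hE v w
    have h6 := Pool.Agent.H69Hopf.area2_nonneg v w
    have h7 : 0 ≤ c * area2 v w := mul_nonneg hc.le h6
    linarith
  · obtain ⟨y, hy, h1⟩ := H56D.GA_loc (A := H56D.AC) (H56D.PT n) (fun _ h => H56D.adm_three h) h hb hc.le hK hU hA
    exact ⟨y, hy, lt_of_lt_of_le (by positivity) h1⟩

theorem GF_dense {n : ℕ} {M : Type} [TopologicalSpace M] [ChartedSpace (EE (2 * n)) M] {g : Ch.Metric (2 * n) M} (hD : DenseClust g) (p : M)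
    (hK : ∀ y ∈ (chartAt (EE (2 * n)) p).target, ∀ E : Mt (2 * n), E.transpose * g.mat p y * E = 1 → KB (N := 2 * n) 0 (frR (riem (g.mat p) y) E))
    {y : EE (2 * n)} (hy : y ∈ (chartAt (EE (2 * n)) p).target) : 0 ≤ (-1) ^ n * pfn (g.mat p) y := by
  obtain ⟨W, hW⟩ : ∃ W : Set (EE (2 * n)), W = (chartAt (EE (2 * n)) p).target := ⟨_, rfl⟩
  rw [← hW] at hK hy
  have hWo : IsOpen W := by rw [hW]; exact (chartAt (EE (2 * n)) p).open_target
  have hM : MetOn W (g.mat p) := by rw [hW]; exact metOn g p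
  have hcl : y ∈ closure {z | z ∈ W ∧ 0 ≤ (-1) ^ n * pfn (g.mat p) z} := by
    rw [mem_closure_iff]
    intro O hO hyO
    obtain ⟨U, hUV, hU, hUne, hA⟩ := hD p (O ∩ W) (fun z hz => hW ▸ hz.2) (hO.inter hWo) ⟨y, hyO, hy⟩
    have hUW : U ⊆ W := fun z hz => (hUV hz).2
    obtain ⟨z, hz, hzc⟩ := GF_loc (gc_mono hM hU hUW) (fun w hw => hK w (hUW hw)) hUne hA
    exact ⟨z, (hUV hz).1, hUW hz, hzc⟩
  have h1 : ContinuousWithinAt (fun z => (-1) ^ n * pfn (g.mat p) z) {z | z ∈ W ∧ 0 ≤ (-1) ^ n * pfn (g.mat p) z} y :=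
    ((GA_cont hM y hy).mono fun z hz => hz.1).const_mul _
  exact continuousWithinAt_const.closure_le hcl h1 fun z hz => hz.2

theorem GF_main {n : ℕ} (hn : 1 ≤ n) (M : Closed (2 * n)) (g : Ch.Metric (2 * n) M.carrier) (hK : SecNonpos g) (hD : DenseClust g) :
    ∃ χ : ℤ, IsEulerCharacteristic (2 * n) M.carrier χ ∧ 0 ≤ (-1) ^ n * χ ∧ ((∃ m : M.carrier, NegAt g m) → 0 < (-1) ^ n * χ) := by
  have hK4 : (0 : ℝ) < 4 ^ n * n.factorial := by positivity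
  have hpt : ∀ p : M.carrier, ∀ y ∈ (chartAt (EE (2 * n)) p).target, ∀ E : Mt (2 * n),
      E.transpose * g.mat p y * E = 1 →
      0 ≤ ((-1) ^ n : ℝ) * Pool.Agent.H69Hopf.gaussBonnet n (frameR (riem (g.mat p) y) E) := by
    intro p y hy E hE
    have h1 := GF_dense hD p (fun z hz E _ => GB_nonpos hK p hz E) hy
    rw [GA_pf (metOn g p) hy hE, ← mul_div_assoc, le_div_iff₀ hK4, zero_mul] at h1
    exact h1
  obtain ⟨χ, h1, h2, h3⟩ := S13 n M g ((-1) ^ n) hpt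
  refine ⟨χ, h1, ?_, ?_⟩
  · exact_mod_cast h2
  · rintro ⟨m, hm⟩
    have h4 : 0 < ((-1) ^ n : ℝ) * χ := by
      obtain ⟨c, hc, W, hWt, hW, hmW, hKW⟩ := GB_neg (by omega) (metOn g m) (mem_chart_target (EE (2 * n)) m) hm
      obtain ⟨U, hUV, hU, hUne, hA⟩ := hD m W hWt hW ⟨_, hmW⟩
      have hM : MetOn U (g.mat m) := gc_mono (metOn g m) hU fun z hz => hWt (hUV hz)
      obtain ⟨y, hy, hyp⟩ := GF_loc' hM hc (fun y hy => hKW y (hUV hy)) hUne hA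
      have hyt := hWt (hUV hy)
      obtain ⟨E, hE⟩ := H79G.exists_frame (g.mat m y) (fun i j => (metOn g m).symm _ hyt i j) fun v hv => (metOn g m).pos _ hyt v hv
      refine h3 ⟨m, y, hyt, E, hE, ?_⟩
      rw [GA_pf (metOn g m) hyt hE, ← mul_div_assoc, lt_div_iff₀ hK4, zero_mul] at hyp
      exact hyp
    exact_mod_cast h4

end H56F
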