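import Pool.Agent.Lib.H56F.Stmt
import Pool.Agent.Lib.H56E.A13

/-!
# H56F, S0: definitions for the strict inequality (see `PROOF.md`)
-/

set_option autoImplicit false

open Finset

namespace H56F

open Pool.Agent.H69Hopf
open H56E
open H30K (KB Cyc)

/-- the curvature operator is positive semidefinite -/
def PsdOp {N : ℕ} (Y : Arr N) : Prop := ∀ W : Fin N → Fin N → ℝ, 0 ≤ ∑ i, ∑ j, ∑ p, ∑ q, Y i j p q * (W i j * W p q)

/-- the square of a two-form -/
def sq2 {N : ℕ} (w : Fin N → Fin N → ℝ) : Arr N := fun i j k l => w i j * w k l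

/-- `w` is skew -/
def Skw {N : ℕ} (w : Fin N → Fin N → ℝ) : Prop := ∀ i j, w i j = - w j i

/-- `2 ^ n n!` times the Pfaffian of `w` -/
def hpf {n : ℕ} (w : Fin (2 * n) → Fin (2 * n) → ℝ) : ℝ :=
  ∑ σ : Equiv.Perm (Fin (2 * n)), ((Equiv.Perm.sign σ : ℤ) : ℝ) * ∏ i : Fin n, w (σ (fst i)) (σ (snd i))

/-- `w(x, y)` -/
def bil {N : ℕ} (w : Fin N → Fin N → ℝ) (x y : Fin N → ℝ) : ℝ := ∑ i, ∑ j, w i j * x i * y j

open Classical in
/-- `- R` on the clusters which satisfy `o`, `c idA` elsewhere -/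
noncomputable def yr {N : ℕ} (o : ℕ → Prop) (t : Fin N → ℕ) (c : ℝ) (R : Arr N) : Arr N := fun i j k l =>
  if (t i = t j ∧ t j = t k ∧ t k = t l) ∧ o (t i) then - R i j k l else c * idA N i j k l

open Classical in
/-- the blocks -/
noncomputable def bo {N : ℕ} (o : ℕ → Prop) (t : Fin N → ℕ) (c : ℝ) (R : Arr N) (a : ℕ) : Arr N :=
  if o a then blk t a (fun i j k l => - R i j k l) else blk t a (xr c R)

end H56F
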