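import Pool.Agent.Lib.H56F.S0

/-!
# S1 (S): mixed form of squares

`mgb T = ∑ σ, ∑ τ, sign σ sign τ ∏ k, T k (σ (fst k)) (σ (snd k)) (τ (fst k)) (τ (snd k))` (`Lib/H69/Hopf/Alt.lean` or `Rec.lean`; see `A7` in `Lib/H56E/A7.lean`): for squares the double sum is a product.
-/

set_option autoImplicit false

open Finset

namespace H56F

open Pool.Agent.H69Hopf
open H56E

theorem s1_sq {n : ℕ} (w : Fin n → Fin (2 * n) → Fin (2 * n) → ℝ) :
    mgb (fun i => sq2 (w i)) =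
      (∑ σ : Equiv.Perm (Fin (2 * n)), ((Equiv.Perm.sign σ : ℤ) : ℝ) * ∏ i : Fin n, w i (σ (fst i)) (σ (snd i))) ^ 2 := by
  unfold mgb sq2
  rw [pow_two, Finset.sum_mul_sum]
  refine Finset.sum_congr rfl fun σ _ => Finset.sum_congr rfl fun τ _ => ?_
  rw [Finset.prod_mul_distrib]
  ring

theorem S1_nonneg {n : ℕ} (w : Fin n → Fin (2 * n) → Fin (2 * n) → ℝ) : 0 ≤ mgb (fun i => sq2 (w i)) := by
  rw [s1_sq]
  exact sq_nonneg _

theorem S1_const {n : ℕ} (w : Fin (2 * n) → Fin (2 * n) → ℝ) : mgb (fun _ : Fin n => sq2 w) = hpf w ^ 2 := by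
  exact s1_sq fun _ => w

end H56F
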