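import Pool.Agent.Lib.H56C.GB

/-!
# S11 (M): the curvature components in orthonormal frames are bounded near a point

Near `x`: `G y ≥ λ` (`λ > 0`; the unit sphere is compact, or as in `GB_neg` / `gb_K_compact` in `Lib/H56C/GB.lean`), so `E.transpose * G y * E = 1` gives `|E a i| ≤ λ ^ (-1/2)`; the components `riem G y a b c e` are bounded near `x` (`H56C.gb_riem_cont`). `frR` in `Lib/H30K/Frame.lean`.
-/

set_option autoImplicit false

open scoped ContDiff Topology Manifold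
open Set

namespace H56F

open H31R H79G H60E H30K H56C

theorem S11_inv_cont {d : ℕ} {U : Set (EE d)} {G : EE d → Mt d} (h : MetOn U G) (a : Fin d) :
    ContinuousOn (fun y => (G y)⁻¹ a a) U := by
  have hG : ContinuousOn G U := by
    refine continuousOn_pi.mpr fun i => continuousOn_pi.mpr fun j => ?_
    exact (h.sm i j).continuousOn
  have hd : ContinuousOn (fun y => (G y).det) U := (continuous_id.matrix_det).comp_continuousOn hG
  have ha : ContinuousOn (fun y => (G y).adjugate a a) U := by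
    have h1 : Continuous fun A : Mt d => A.adjugate := continuous_id.matrix_adjugate
    have h2 : Continuous fun A : Mt d => A.adjugate a a := h1.matrix_elem a a
    exact h2.comp_continuousOn hG
  have he : ∀ y, (G y)⁻¹ a a = ((G y).det)⁻¹ * (G y).adjugate a a := by
    intro y
    rw [Matrix.inv_def, Ring.inverse_eq_inv', Matrix.smul_apply, smul_eq_mul]
  simp only [he]
  exact (hd.inv₀ (met_det_ne h)).mul ha

theorem S11_sq {d : ℕ} {G E : Mt d} (hE : E.transpose * G * E = 1) (a i : Fin d) :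
    E a i ^ 2 ≤ |G⁻¹ a a| := by
  have h1 : E * (E.transpose * G) = 1 := mul_eq_one_comm.mp hE
  have h2 : (E * E.transpose) * G = 1 := by rw [Matrix.mul_assoc]; exact h1
  have h3 : G⁻¹ = E * E.transpose := Matrix.inv_eq_left_inv h2
  have h4 : G⁻¹ a a = ∑ j, E a j ^ 2 := by
    rw [h3, Matrix.mul_apply]
    refine Finset.sum_congr rfl fun j _ => ?_
    rw [Matrix.transpose_apply]
    ring
  rw [h4]
  refine le_trans ?_ (le_abs_self _)
  exact Finset.single_le_sum (f := fun j => E a j ^ 2) (fun _ _ => sq_nonneg _) (Finset.mem_univ i)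

theorem S11_loc {d : ℕ} {U : Set (EE d)} (hU : IsOpen U) {f : EE d → ℝ} (hf : ContinuousOn f U)
    {x : EE d} (hx : x ∈ U) :
    ∃ W : Set (EE d), W ⊆ U ∧ IsOpen W ∧ x ∈ W ∧ ∀ y ∈ W, f y ≤ f x + 1 := by
  refine ⟨U ∩ f ⁻¹' (Set.Iio (f x + 1)), Set.inter_subset_left, hf.isOpen_inter_preimage hU isOpen_Iio,
    ⟨hx, ?_⟩, fun y hy => le_of_lt hy.2⟩
  change f x < f x + 1
  linarith

theorem S11 {d : ℕ} {U : Set (EE d)} {G : EE d → Mt d} (h : MetOn U G) {x : EE d} (hx : x ∈ U) :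
    ∃ (C : ℝ) (W : Set (EE d)), W ⊆ U ∧ IsOpen W ∧ x ∈ W ∧ ∀ y ∈ W, ∀ E : Mt d, E.transpose * G y * E = 1 → ∀ i j k l, |frR (riem G y) E i j k l| ≤ C := by
  have hR : ∀ a b c e, ContinuousOn (fun y => |riem G y a b c e|) U :=
    fun a b c e => (gb_riem_cont h a b c e).abs
  have hI : ∀ a, ContinuousOn (fun y => |(G y)⁻¹ a a|) U := fun a => (S11_inv_cont h a).abs
  have hF : ContinuousOn (fun y => (∑ a, |(G y)⁻¹ a a|) +
      ∑ a, ∑ b, ∑ c, ∑ e, |riem G y a b c e|) U := by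
    refine ContinuousOn.add (continuousOn_finsetSum _ fun a _ => hI a) ?_
    exact continuousOn_finsetSum _ fun a _ => continuousOn_finsetSum _ fun b _ =>
      continuousOn_finsetSum _ fun c _ => continuousOn_finsetSum _ fun e _ => hR a b c e
  obtain ⟨W, hWU, hWo, hxW, hW⟩ := S11_loc h.hU hF hx
  obtain ⟨M, hM⟩ : ∃ M : ℝ, M = ((∑ a, |(G x)⁻¹ a a|) +
      ∑ a, ∑ b, ∑ c, ∑ e, |riem G x a b c e|) + 1 := ⟨_, rfl⟩
  have hW' : ∀ y ∈ W, (∑ a, |(G y)⁻¹ a a|) + ∑ a, ∑ b, ∑ c, ∑ e, |riem G y a b c e| ≤ M := by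
    intro y hy
    rw [hM]
    exact hW y hy
  have hn1 : ∀ y, 0 ≤ ∑ a, |(G y)⁻¹ a a| := fun y => Finset.sum_nonneg fun _ _ => abs_nonneg _
  have hn2 : ∀ y, 0 ≤ ∑ a, ∑ b, ∑ c, ∑ e, |riem G y a b c e| := fun y =>
    Finset.sum_nonneg fun _ _ => Finset.sum_nonneg fun _ _ => Finset.sum_nonneg fun _ _ =>
      Finset.sum_nonneg fun _ _ => abs_nonneg _
  have hM0 : 0 ≤ M := by
    have := hW' x hxW
    have h1 := hn1 x
    have h2 := hn2 x
    linarith
  refine ⟨∑ _a : Fin d, ∑ _b : Fin d, ∑ _c : Fin d, ∑ _e : Fin d,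
    M * (M + 1) * (M + 1) * (M + 1) * (M + 1), W, hWU, hWo, hxW, ?_⟩
  intro y hy E hE i j k l
  have hEb : ∀ a i, |E a i| ≤ M + 1 := by
    intro a i
    have h1 : E a i ^ 2 ≤ |(G y)⁻¹ a a| := S11_sq hE a i
    have h2 : |(G y)⁻¹ a a| ≤ ∑ a, |(G y)⁻¹ a a| :=
      Finset.single_le_sum (f := fun a => |(G y)⁻¹ a a|) (fun _ _ => abs_nonneg _)
        (Finset.mem_univ a)
    have h3 := hW' y hy
    have h4 := hn2 y
    have h5 : |E a i| ^ 2 ≤ M := by rw [sq_abs]; linarith
    by_contra hc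
    have hc' : M + 1 < |E a i| := not_le.mp hc
    nlinarith [abs_nonneg (E a i)]
  have hRb : ∀ a b c e, |riem G y a b c e| ≤ M := by
    intro a b c e
    have h1 : |riem G y a b c e| ≤ ∑ e, |riem G y a b c e| :=
      Finset.single_le_sum (f := fun e => |riem G y a b c e|) (fun _ _ => abs_nonneg _)
        (Finset.mem_univ e)
    have h2 : ∑ e, |riem G y a b c e| ≤ ∑ c, ∑ e, |riem G y a b c e| :=
      Finset.single_le_sum (f := fun c => ∑ e, |riem G y a b c e|)
        (fun _ _ => Finset.sum_nonneg fun _ _ => abs_nonneg _) (Finset.mem_univ c)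
    have h3 : ∑ c, ∑ e, |riem G y a b c e| ≤ ∑ b, ∑ c, ∑ e, |riem G y a b c e| :=
      Finset.single_le_sum (f := fun b => ∑ c, ∑ e, |riem G y a b c e|)
        (fun _ _ => Finset.sum_nonneg fun _ _ => Finset.sum_nonneg fun _ _ => abs_nonneg _)
        (Finset.mem_univ b)
    have h4 : ∑ b, ∑ c, ∑ e, |riem G y a b c e| ≤ ∑ a, ∑ b, ∑ c, ∑ e, |riem G y a b c e| :=
      Finset.single_le_sum (f := fun a => ∑ b, ∑ c, ∑ e, |riem G y a b c e|)
        (fun _ _ => Finset.sum_nonneg fun _ _ => Finset.sum_nonneg fun _ _ =>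
          Finset.sum_nonneg fun _ _ => abs_nonneg _) (Finset.mem_univ a)
    have h5 := hW' y hy
    have h6 := hn1 y
    linarith
  have hterm : ∀ a b c e, |riem G y a b c e * E a i * E b j * E c k * E e l| ≤
      M * (M + 1) * (M + 1) * (M + 1) * (M + 1) := by
    intro a b c e
    have hM1 : 0 ≤ M + 1 := by linarith
    rw [abs_mul, abs_mul, abs_mul, abs_mul]
    refine mul_le_mul (mul_le_mul (mul_le_mul (mul_le_mul (hRb a b c e) (hEb a i) (abs_nonneg _) hM0)
      (hEb b j) (abs_nonneg _) (by positivity)) (hEb c k) (abs_nonneg _) (by positivity))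
      (hEb e l) (abs_nonneg _) (by positivity)
  unfold frR
  refine le_trans (Finset.abs_sum_le_sum_abs _ _) (Finset.sum_le_sum fun a _ => ?_)
  refine le_trans (Finset.abs_sum_le_sum_abs _ _) (Finset.sum_le_sum fun b _ => ?_)
  refine le_trans (Finset.abs_sum_le_sum_abs _ _) (Finset.sum_le_sum fun c _ => ?_)
  refine le_trans (Finset.abs_sum_le_sum_abs _ _) (Finset.sum_le_sum fun e _ => ?_)
  exact hterm a b c e

end H56F
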