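import Pool.Agent.Lib.H79G.F1

/-!
# S13: the sign principle with the strict inequality at any point of a chart
-/

set_option autoImplicit false

open scoped Manifold ContDiff
open Set H31R H79G MeasureTheory

namespace H56F

/-- the integrand does not depend on the chart -/
theorem s13_chart {n : ℕ} (M : Closed (2 * n)) (g : Ch.Metric (2 * n) M.carrier) (m : M.carrier) {y : EE (2 * n)} (hy : y ∈ (chartAt (EE (2 * n)) m).target) :
    evM 0 (PC (cuv (g.mat ((chartAt (EE (2 * n)) m).symm y)) (chartAt (EE (2 * n)) ((chartAt (EE (2 * n)) m).symm y) ((chartAt (EE (2 * n)) m).symm y)))) =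
      evM 0 (PC (cuv (g.mat m) y)) := by
  obtain ⟨X0, -⟩ := E4_exists_nondegenerate (2 * n) M.carrier
  have h1 := glob_symm (sField_UU g X0 0) hy
  rw [F1_UU_zero] at h1
  rw [← h1]
  exact (F1_UU_zero _ _ _).symm

theorem S13 (n : ℕ) (M : Closed (2 * n)) (g : Ch.Metric (2 * n) M.carrier) (ε : ℝ)
    (h : ∀ p : M.carrier, ∀ y ∈ (chartAt (EE (2 * n)) p).target, ∀ E : Mt (2 * n), E.transpose * g.mat p y * E = 1 → 0 ≤ ε * Pool.Agent.H69Hopf.gaussBonnet n (frameR (riem (g.mat p) y) E)) :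
    ∃ χ : ℤ, IsEulerCharacteristic (2 * n) M.carrier χ ∧ 0 ≤ ε * χ ∧
      ((∃ m : M.carrier, ∃ y ∈ (chartAt (EE (2 * n)) m).target, ∃ E : Mt (2 * n), E.transpose * g.mat m y * E = 1 ∧ 0 < ε * Pool.Agent.H69Hopf.gaussBonnet n (frameR (riem (g.mat m) y) E)) → 0 < ε * χ) := by
  obtain ⟨χ, h1, h2, h3⟩ := sign_principle n M g ε h
  refine ⟨χ, h1, h2, ?_⟩
  rintro ⟨m, y, hy, E, hE, hpos⟩
  refine h3 ⟨(chartAt (EE (2 * n)) m).symm y, fun E' hE' => ?_⟩
  have hD : (0 : ℝ) < 4 ^ n * n.factorial := by positivity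
  have e1 := gb_frame (metOn g m) hy hE
  have e2 := gb_frame (metOn g ((chartAt (EE (2 * n)) m).symm y)) (mem_chart_target _ _) hE'
  rw [s13_chart M g m hy, e1] at e2
  have e3 : Pool.Agent.H69Hopf.gaussBonnet n (frameR (riem (g.mat m) y) E) = Pool.Agent.H69Hopf.gaussBonnet n
      (frameR (riem (g.mat ((chartAt (EE (2 * n)) m).symm y)) (chartAt (EE (2 * n)) ((chartAt (EE (2 * n)) m).symm y) ((chartAt (EE (2 * n)) m).symm y))) E') := by
    field_simp at e2
    linarith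
  rw [← e3]
  exact hpos

end H56F
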