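import Pool.Agent.Lib.H56F.S0

/-!
# S2 (M): a positive semidefinite curvature operator is a sum of squares

`A : Matrix (Fin N × Fin N) (Fin N × Fin N) ℝ`, `A (i, j) (p, q) = Y i j p q`, symmetric (`hs`) and positive semidefinite: `A = Bᵀ * B` (`Matrix.posSemidef_iff_eq_conjTranspose_mul_self` or `CStarAlgebra.nonneg_iff_eq_star_mul_self`,
see the proof of `H30K.exists_fr` in `Lib/H30K/Frame.lean`, or `H56E.A9` which does the same for a form on `Fin N`), `w r i j = B r (i, j)`. `S2_skw`: for symmetric `W`: `0 = Y(W, W) = ∑ r (∑ w r W) ^ 2`.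
-/

set_option autoImplicit false

open Finset

namespace H56F

open Pool.Agent.H69Hopf
open H56E

open scoped MatrixOrder in
theorem S2_fac {κ : Type} [Fintype κ] [DecidableEq κ] {H : Matrix κ κ ℝ} (hH : H.PosSemidef) :
    ∃ B : Matrix κ κ ℝ, ∀ m k, H m k = ∑ r, B r m * B r k := by
  obtain ⟨B, hB⟩ := CStarAlgebra.nonneg_iff_eq_star_mul_self.mp hH.nonneg
  refine ⟨B, fun m k => ?_⟩
  rw [hB, Matrix.star_eq_conjTranspose, Matrix.mul_apply]
  simp

theorem S2 {N : ℕ} {Y : Arr N} (hs : ∀ i j p q, Y i j p q = Y p q i j) (hP : PsdOp Y) :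
    ∃ w : Fin N × Fin N → Fin N → Fin N → ℝ, ∀ i j p q, Y i j p q = ∑ r, w r i j * w r p q := by
  obtain ⟨H, hH⟩ : ∃ H : Matrix (Fin N × Fin N) (Fin N × Fin N) ℝ,
      ∀ a b, H a b = Y a.1 a.2 b.1 b.2 := ⟨fun a b => Y a.1 a.2 b.1 b.2, fun _ _ => rfl⟩
  have hpsd : H.PosSemidef := by
    refine Matrix.PosSemidef.of_dotProduct_mulVec_nonneg ?_ ?_
    · ext a b
      rw [Matrix.conjTranspose_apply, star_trivial, hH, hH]
      exact hs _ _ _ _
    · intro x
      have h1 : star x ⬝ᵥ (H.mulVec x) =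
          ∑ i, ∑ j, ∑ p, ∑ q, Y i j p q * (x (i, j) * x (p, q)) := by
        unfold dotProduct Matrix.mulVec dotProduct
        rw [Fintype.sum_prod_type]
        refine Finset.sum_congr rfl fun i _ => Finset.sum_congr rfl fun j _ => ?_
        rw [Fintype.sum_prod_type, Finset.mul_sum]
        refine Finset.sum_congr rfl fun p _ => ?_
        rw [Finset.mul_sum]
        refine Finset.sum_congr rfl fun q _ => ?_
        rw [Pi.star_apply, star_trivial]
        show x (i, j) * (H (i, j) (p, q) * x (p, q)) = Y i j p q * (x (i, j) * x (p, q))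
        rw [hH]
        ring
      rw [h1]
      exact hP fun i j => x (i, j)
  obtain ⟨B, hB⟩ := S2_fac hpsd
  refine ⟨fun r i j => B r (i, j), fun i j p q => ?_⟩
  rw [← hB (i, j) (p, q), hH]

theorem S2_skw {N : ℕ} {Y : Arr N} (hY : IsAlgCurv Y) {ι : Type} [Fintype ι] {w : ι → Fin N → Fin N → ℝ} (hw : ∀ i j p q, Y i j p q = ∑ r, w r i j * w r p q) (r : ι) : Skw (w r) := by
  intro i j
  have h1 : ∑ r, (w r i j + w r j i) * (w r i j + w r j i) = 0 := by
    have h2 : ∀ r, (w r i j + w r j i) * (w r i j + w r j i) =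
        (w r i j * w r i j + w r j i * w r i j) + (w r i j * w r j i + w r j i * w r j i) :=
      fun r => by ring
    rw [Finset.sum_congr rfl fun r _ => h2 r, Finset.sum_add_distrib, Finset.sum_add_distrib,
      Finset.sum_add_distrib, ← hw, ← hw, ← hw, ← hw, hY.skew i j i j, hY.skew i j j i]
    ring
  have h3 := (Finset.sum_eq_zero_iff_of_nonneg
    (fun r _ => mul_self_nonneg (w r i j + w r j i))).1 h1 r (Finset.mem_univ _)
  have h4 := mul_self_eq_zero.1 h3
  linarith

end H56F
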