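import Pool.Agent.Lib.H56F.S1
import Pool.Agent.Lib.H56F.S2

/-!
# S3 (S/M): monotonicity for positive semidefinite curvature operators

`S3`: `X = Y - sq2 w` satisfies `PsdOp` (`hw`), `S2` (`X i j p q = X p q i j` from `hY`): `X` and `sq2 w` are in the closure of `{sq2 v}` (for `X`: a finite sum). `H56E.A7_mono` with `S1_nonneg`, `S1_const`, `gaussBonnet_eq_mgb`. `S3_nonneg`: `w = 0`.
-/

set_option autoImplicit false

open Finset

namespace H56F

open Pool.Agent.H69Hopf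
open H56E

theorem s3_psd {N : ℕ} {Y : Arr N} {w : Fin N → Fin N → ℝ}
    (hw : ∀ W : Fin N → Fin N → ℝ, (∑ i, ∑ j, w i j * W i j) ^ 2 ≤ ∑ i, ∑ j, ∑ p, ∑ q, Y i j p q * (W i j * W p q)) :
    PsdOp (Y - sq2 w) := by
  intro W
  have h := hw W
  have e : ∑ i, ∑ j, ∑ p, ∑ q, (Y - sq2 w) i j p q * (W i j * W p q) =
      ∑ i, ∑ j, ∑ p, ∑ q, Y i j p q * (W i j * W p q) - (∑ i, ∑ j, w i j * W i j) ^ 2 := by
    have e1 : (∑ i, ∑ j, w i j * W i j) ^ 2 = ∑ i, ∑ j, ∑ p, ∑ q, (w i j * w p q) * (W i j * W p q) := by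
      rw [sq, Finset.sum_mul]
      refine Finset.sum_congr rfl fun i _ => ?_
      rw [Finset.sum_mul]
      refine Finset.sum_congr rfl fun j _ => ?_
      rw [Finset.mul_sum]
      refine Finset.sum_congr rfl fun p _ => ?_
      rw [Finset.mul_sum]
      refine Finset.sum_congr rfl fun q _ => ?_
      ring
    rw [e1]
    simp only [← Finset.sum_sub_distrib]
    refine Finset.sum_congr rfl fun i _ => Finset.sum_congr rfl fun j _ => Finset.sum_congr rfl fun p _ =>
      Finset.sum_congr rfl fun q _ => ?_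
    simp only [Pi.sub_apply, sq2]
    ring
  rw [e]
  linarith

theorem S3 {n : ℕ} {Y : Arr (2 * n)} (hY : IsAlgCurv Y) {w : Fin (2 * n) → Fin (2 * n) → ℝ}
    (hw : ∀ W : Fin (2 * n) → Fin (2 * n) → ℝ, (∑ i, ∑ j, w i j * W i j) ^ 2 ≤ ∑ i, ∑ j, ∑ p, ∑ q, Y i j p q * (W i j * W p q)) :
    hpf w ^ 2 ≤ gaussBonnet n Y := by
  have hXs : ∀ i j p q, (Y - sq2 w) i j p q = (Y - sq2 w) p q i j := fun i j p q => by
    simp only [Pi.sub_apply, sq2]
    rw [hY.pair i j p q, mul_comm (w i j)]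
  obtain ⟨v, hv⟩ := S2 hXs (s3_psd hw)
  have hS : ∀ T : Fin n → Arr (2 * n), (∀ i, T i ∈ Set.range (sq2 (N := 2 * n))) → 0 ≤ mgb T := fun T hT => by
    choose u hu using hT
    have h : T = fun i => sq2 (u i) := funext fun i => (hu i).symm
    rw [h]
    exact S1_nonneg u
  have hXc : Y - sq2 w ∈ AddSubmonoid.closure (Set.range (sq2 (N := 2 * n))) := by
    have h : Y - sq2 w = ∑ r, sq2 (v r) := by
      funext i j p q
      rw [hv]
      simp only [Finset.sum_apply, sq2]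
    rw [h]
    exact AddSubmonoid.sum_mem _ fun r _ => AddSubmonoid.subset_closure ⟨_, rfl⟩
  have hwc : sq2 w ∈ AddSubmonoid.closure (Set.range (sq2 (N := 2 * n))) := AddSubmonoid.subset_closure ⟨_, rfl⟩
  have h := A7_mono hS hXc hwc
  rw [S1_const, sub_add_cancel, ← gaussBonnet_eq_mgb] at h
  exact h

theorem S3_nonneg {n : ℕ} {Y : Arr (2 * n)} (hY : IsAlgCurv Y) (hP : PsdOp Y) : 0 ≤ gaussBonnet n Y := by
  have h := S3 hY (w := fun _ _ => 0) (fun W => by
    have h := hP W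
    simp only [zero_mul, Finset.sum_const_zero]
    linarith)
  exact (sq_nonneg _).trans h

end H56F
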