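import Pool.Agent.Lib.H56F.S0
import Pool.Agent.Lib.H2K.P1

/-!
# S4 (L): a skew form with vanishing Pfaffian has a kernel of dimension at least two

`S4_mul`: `hpf (gᵀ w g) = det g * hpf w`: from `H2K.P1` (`Lib/H2K/P1.lean`, complex polynomials; evaluate at real values, `Complex.ofReal`), or repeat its proof over `ℝ`.
`S4_block`: if `w 0 1 = 1`, `w 0 j = w 1 j = 0` for `j ≥ 2` (`w` skew) then `hpf w = 2 (n + 1) * hpf (fun i j => w i.succ.succ j.succ.succ)`: the only permutations which contribute have `{σ (fst k), σ (snd k)} = {0, 1}` for some `k`.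
(Alternative: `hpf w ^ 2 = mgb (sq2 w, ..)` and the expansions of `Lib/H69/Hopf`, `Lib/H56C/L3.lean`; only `hpf w = 0 → hpf (rest) = 0` is needed.)
`S4`: induction on `n`. If `w = 0`: trivial (`x = ei 0`, `y = ei 1`). Otherwise `w(u, v) = 1` for some `u`, `v` (scale). Take an invertible `g` whose first two columns are `u`, `v` and whose other columns are in the complement
`{z | w(u, z) = w(v, z) = 0}` (any basis of `ℝ ^ (2 n + 2)` starting with `u`, `v`, then `z ↦ z - w(u, z) v + w(v, z) u`). `gᵀ w g` has the block form, so `hpf` of the rest is `0`; the induction hypothesis gives two independent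
kernel vectors of the rest, and `g` maps them to kernel vectors of `w`.
-/

set_option autoImplicit false

open Finset

namespace H56F

open Pool.Agent.H69Hopf
open H56E

/-! ### the multilinear map -/

theorem s4_bil_add1 {N : ℕ} (w : Fin N → Fin N → ℝ) (x x' y : Fin N → ℝ) :
    bil w (x + x') y = bil w x y + bil w x' y := by
  simp only [bil, Pi.add_apply, ← Finset.sum_add_distrib]
  refine Finset.sum_congr rfl fun i _ => Finset.sum_congr rfl fun j _ => ?_
  ring

theorem s4_bil_add2 {N : ℕ} (w : Fin N → Fin N → ℝ) (x y y' : Fin N → ℝ) :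
    bil w x (y + y') = bil w x y + bil w x y' := by
  simp only [bil, Pi.add_apply, ← Finset.sum_add_distrib]
  refine Finset.sum_congr rfl fun i _ => Finset.sum_congr rfl fun j _ => ?_
  ring

theorem s4_bil_smul1 {N : ℕ} (w : Fin N → Fin N → ℝ) (c : ℝ) (x y : Fin N → ℝ) :
    bil w (c • x) y = c * bil w x y := by
  simp only [bil, Pi.smul_apply, smul_eq_mul, Finset.mul_sum]
  refine Finset.sum_congr rfl fun i _ => Finset.sum_congr rfl fun j _ => ?_
  ring

theorem s4_bil_smul2 {N : ℕ} (w : Fin N → Fin N → ℝ) (c : ℝ) (x y : Fin N → ℝ) :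
    bil w x (c • y) = c * bil w x y := by
  simp only [bil, Pi.smul_apply, smul_eq_mul, Finset.mul_sum]
  refine Finset.sum_congr rfl fun i _ => Finset.sum_congr rfl fun j _ => ?_
  ring

theorem s4_bil_single1 {N : ℕ} (w : Fin N → Fin N → ℝ) (i : Fin N) (y : Fin N → ℝ) :
    bil w (Pi.single i 1) y = ∑ j, w i j * y j := by
  unfold bil
  rw [Finset.sum_eq_single i]
  · refine Finset.sum_congr rfl fun j _ => ?_
    rw [Pi.single_eq_same]
    ring
  · intro b _ hb
    refine Finset.sum_eq_zero fun j _ => ?_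
    rw [Pi.single_eq_of_ne hb]
    ring
  · intro h
    exact absurd (Finset.mem_univ _) h

theorem s4_bil_single {N : ℕ} (w : Fin N → Fin N → ℝ) (i j : Fin N) :
    bil w (Pi.single i 1) (Pi.single j 1) = w i j := by
  rw [s4_bil_single1, Finset.sum_eq_single j]
  · rw [Pi.single_eq_same, mul_one]
  · intro b _ hb
    rw [Pi.single_eq_of_ne hb, mul_zero]
  · intro h
    exact absurd (Finset.mem_univ _) h

theorem s4_bil_skew {N : ℕ} {w : Fin N → Fin N → ℝ} (hw : Skw w) (x y : Fin N → ℝ) :
    bil w x y = - bil w y x := by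
  unfold bil
  rw [Finset.sum_comm, ← Finset.sum_neg_distrib]
  refine Finset.sum_congr rfl fun i _ => ?_
  rw [← Finset.sum_neg_distrib]
  refine Finset.sum_congr rfl fun j _ => ?_
  rw [hw j i]
  ring

theorem s4_split {n : ℕ} (w : Fin (2 * n) → Fin (2 * n) → ℝ) (v : Fin (2 * n) → (Fin (2 * n) → ℝ)) (i : Fin n) :
    ∏ j : Fin n, bil w (v (fst j)) (v (snd j)) = bil w (v (fst i)) (v (snd i)) *
      ∏ j ∈ Finset.univ.erase i, bil w (v (fst j)) (v (snd j)) := by
  rw [Finset.mul_prod_erase Finset.univ (fun j => bil w (v (fst j)) (v (snd j))) (Finset.mem_univ i)]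

theorem s4_rest {n : ℕ} [DecidableEq (Fin (2 * n))] (w : Fin (2 * n) → Fin (2 * n) → ℝ)
    (v : Fin (2 * n) → (Fin (2 * n) → ℝ)) (i : Fin n) (x : Fin (2 * n) → ℝ) (r : Fin (2 * n))
    (hr : r = fst i ∨ r = snd i) :
    (∏ j ∈ Finset.univ.erase i, bil w (Function.update v r x (fst j)) (Function.update v r x (snd j))) =
    ∏ j ∈ Finset.univ.erase i, bil w (v (fst j)) (v (snd j)) := by
  refine Finset.prod_congr rfl fun j hj => ?_
  have hji : j ≠ i := Finset.ne_of_mem_erase hj
  have h1 : fst j ≠ r := by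
    rcases hr with rfl | rfl
    · exact fun h => hji (fst_inj.1 h)
    · exact fst_ne_snd j i
  have h2 : snd j ≠ r := by
    rcases hr with rfl | rfl
    · exact fun h => fst_ne_snd i j h.symm
    · exact fun h => hji (snd_inj.1 h)
  rw [Function.update_of_ne h1, Function.update_of_ne h2]

/-- the product of the values as a multilinear map -/
noncomputable def s4M {n : ℕ} (w : Fin (2 * n) → Fin (2 * n) → ℝ) :
    MultilinearMap ℝ (fun _ : Fin (2 * n) => (Fin (2 * n) → ℝ)) ℝ where
  toFun v := ∏ i : Fin n, bil w (v (fst i)) (v (snd i))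
  map_update_add' := by
    intro inst a r x y
    obtain ⟨i, hi⟩ := exists_fst_or_snd r
    rw [s4_split _ _ i, s4_split _ _ i, s4_split _ _ i, s4_rest w a i _ r hi,
      s4_rest w a i _ r hi, s4_rest w a i _ r hi, ← add_mul]
    congr 1
    rcases hi with rfl | rfl
    · have h := (fst_ne_snd i i).symm
      rw [Function.update_self, Function.update_self, Function.update_self,
        Function.update_of_ne h, Function.update_of_ne h, Function.update_of_ne h, s4_bil_add1]
    · have h := fst_ne_snd i i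
      rw [Function.update_self, Function.update_self, Function.update_self,
        Function.update_of_ne h, Function.update_of_ne h, Function.update_of_ne h, s4_bil_add2]
  map_update_smul' := by
    intro inst a r c x
    obtain ⟨i, hi⟩ := exists_fst_or_snd r
    rw [s4_split _ _ i, s4_split _ _ i, s4_rest w a i _ r hi,
      s4_rest w a i _ r hi, smul_eq_mul, ← mul_assoc]
    congr 1
    rcases hi with rfl | rfl
    · have h := (fst_ne_snd i i).symm
      rw [Function.update_self, Function.update_self,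
        Function.update_of_ne h, Function.update_of_ne h, s4_bil_smul1]
    · have h := fst_ne_snd i i
      rw [Function.update_self, Function.update_self,
        Function.update_of_ne h, Function.update_of_ne h, s4_bil_smul2]

theorem s4_gform {n : ℕ} (g : Matrix (Fin (2 * n)) (Fin (2 * n)) ℝ) (w : Fin (2 * n) → Fin (2 * n) → ℝ)
    (i j : Fin (2 * n)) : ∑ a, ∑ b, g a i * w a b * g b j = bil w (fun a => g a i) (fun b => g b j) := by
  unfold bil
  refine Finset.sum_congr rfl fun a _ => Finset.sum_congr rfl fun b _ => ?_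
  ring

theorem S4_mul {n : ℕ} (g : Matrix (Fin (2 * n)) (Fin (2 * n)) ℝ) (w : Fin (2 * n) → Fin (2 * n) → ℝ) :
    hpf (fun i j => ∑ a, ∑ b, g a i * w a b * g b j) = g.det * hpf w := by
  have h1 : hpf (fun i j => ∑ a, ∑ b, g a i * w a b * g b j) =
      ∑ σ : Equiv.Perm (Fin (2 * n)), ((Equiv.Perm.sign σ : ℤ) : ℝ) * s4M w (fun k => g.transpose (σ k)) := by
    unfold hpf
    refine Finset.sum_congr rfl fun σ _ => ?_
    congr 1
    show _ = ∏ i : Fin n, bil w (g.transpose (σ (fst i))) (g.transpose (σ (snd i)))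
    refine Finset.prod_congr rfl fun i _ => ?_
    exact s4_gform g w _ _
  have h2 : hpf w = ∑ σ : Equiv.Perm (Fin (2 * n)), ((Equiv.Perm.sign σ : ℤ) : ℝ) *
      s4M w (fun k => Pi.single (σ k) 1) := by
    unfold hpf
    refine Finset.sum_congr rfl fun σ _ => ?_
    congr 1
    show _ = ∏ i : Fin n, bil w (Pi.single (σ (fst i)) 1) (Pi.single (σ (snd i)) 1)
    refine Finset.prod_congr rfl fun i _ => ?_
    exact (s4_bil_single w _ _).symm
  rw [h1, h2]
  have h3 := alt_det (s4M w) g.transpose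
  have h4 : Matrix.det (Matrix.of g.transpose) = g.det := Matrix.det_transpose g
  rw [h4] at h3
  exact h3

/-! ### the block formula -/

/-- exchange of the pairs `0` and `i` -/
def s4P {n : ℕ} (i : Fin (n + 1)) : Equiv.Perm (Fin (2 * (n + 1))) :=
  Equiv.swap (fst 0) (fst i) * Equiv.swap (snd 0) (snd i)

theorem s4P_fst {n : ℕ} (i j : Fin (n + 1)) : s4P i (fst j) = fst (Equiv.swap 0 i j) := by
  unfold s4P
  rw [Equiv.Perm.mul_apply, Equiv.swap_apply_of_ne_of_ne (fst_ne_snd j 0) (fst_ne_snd j i)]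
  by_cases h0 : j = 0
  · subst h0
    rw [Equiv.swap_apply_left, Equiv.swap_apply_left]
  · by_cases h1 : j = i
    · subst h1
      rw [Equiv.swap_apply_right, Equiv.swap_apply_right]
    · rw [Equiv.swap_apply_of_ne_of_ne h0 h1, Equiv.swap_apply_of_ne_of_ne]
      · exact fun h => h0 (fst_inj.1 h)
      · exact fun h => h1 (fst_inj.1 h)

theorem s4P_snd {n : ℕ} (i j : Fin (n + 1)) : s4P i (snd j) = snd (Equiv.swap 0 i j) := by
  unfold s4P
  rw [Equiv.Perm.mul_apply]
  have h2 : Equiv.swap (snd 0) (snd i) (snd j) = snd (Equiv.swap 0 i j) := by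
    by_cases h0 : j = 0
    · subst h0
      rw [Equiv.swap_apply_left, Equiv.swap_apply_left]
    · by_cases h1 : j = i
      · subst h1
        rw [Equiv.swap_apply_right, Equiv.swap_apply_right]
      · rw [Equiv.swap_apply_of_ne_of_ne h0 h1, Equiv.swap_apply_of_ne_of_ne]
        · exact fun h => h0 (snd_inj.1 h)
        · exact fun h => h1 (snd_inj.1 h)
  rw [h2]
  exact Equiv.swap_apply_of_ne_of_ne (fst_ne_snd 0 _).symm (fst_ne_snd i _).symm

theorem s4P_sign {n : ℕ} (i : Fin (n + 1)) : Equiv.Perm.sign (s4P i) = 1 := by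
  unfold s4P
  rw [Equiv.Perm.sign_mul]
  by_cases h : (0 : Fin (n + 1)) = i
  · subst h
    rw [Equiv.swap_self, Equiv.swap_self]
    simp
  · rw [Equiv.Perm.sign_swap (fun h' => h (fst_inj.1 h')), Equiv.Perm.sign_swap (fun h' => h (snd_inj.1 h'))]
    simp

/-- the summand of `hpf` -/
noncomputable def s4F {n : ℕ} (w : Fin (2 * n) → Fin (2 * n) → ℝ) (σ : Equiv.Perm (Fin (2 * n))) : ℝ :=
  ((Equiv.Perm.sign σ : ℤ) : ℝ) * ∏ i : Fin n, w (σ (fst i)) (σ (snd i))

theorem s4F_P {n : ℕ} (w : Fin (2 * (n + 1)) → Fin (2 * (n + 1)) → ℝ) (i : Fin (n + 1))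
    (σ : Equiv.Perm (Fin (2 * (n + 1)))) : s4F w (σ * s4P i) = s4F w σ := by
  unfold s4F
  rw [Equiv.Perm.sign_mul, s4P_sign, mul_one]
  congr 1
  rw [← Equiv.prod_comp (Equiv.swap 0 i) (fun j => w (σ (fst j)) (σ (snd j)))]
  refine Finset.prod_congr rfl fun j _ => ?_
  rw [Equiv.Perm.mul_apply, Equiv.Perm.mul_apply, s4P_fst, s4P_snd]

theorem s4F_Q {n : ℕ} {w : Fin (2 * n) → Fin (2 * n) → ℝ} (hw : Skw w) (i : Fin n)
    (σ : Equiv.Perm (Fin (2 * n))) : s4F w (σ * Equiv.swap (fst i) (snd i)) = s4F w σ := by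
  unfold s4F
  rw [Equiv.Perm.sign_mul, Equiv.Perm.sign_swap (fst_ne_snd i i)]
  rw [← Finset.mul_prod_erase Finset.univ (fun j => w (σ (fst j)) (σ (snd j))) (Finset.mem_univ i),
    ← Finset.mul_prod_erase Finset.univ (fun j => w ((σ * Equiv.swap (fst i) (snd i)) (fst j))
      ((σ * Equiv.swap (fst i) (snd i)) (snd j))) (Finset.mem_univ i)]
  have h1 : ∏ j ∈ Finset.univ.erase i, w ((σ * Equiv.swap (fst i) (snd i)) (fst j))
      ((σ * Equiv.swap (fst i) (snd i)) (snd j)) =
      ∏ j ∈ Finset.univ.erase i, w (σ (fst j)) (σ (snd j)) := by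
    refine Finset.prod_congr rfl fun j hj => ?_
    have hji : j ≠ i := Finset.ne_of_mem_erase hj
    rw [Equiv.Perm.mul_apply, Equiv.Perm.mul_apply,
      Equiv.swap_apply_of_ne_of_ne (fun h => hji (fst_inj.1 h)) (fst_ne_snd j i),
      Equiv.swap_apply_of_ne_of_ne (fst_ne_snd i j).symm (fun h => hji (snd_inj.1 h))]
  rw [h1]
  have h2 : w ((σ * Equiv.swap (fst i) (snd i)) (fst i)) ((σ * Equiv.swap (fst i) (snd i)) (snd i)) =
      - w (σ (fst i)) (σ (snd i)) := by
    rw [Equiv.Perm.mul_apply, Equiv.Perm.mul_apply, Equiv.swap_apply_left, Equiv.swap_apply_right]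
    exact hw _ _
  rw [h2]
  push_cast
  ring

theorem s4_shift {n : ℕ} {w : Fin (2 * (n + 1)) → Fin (2 * (n + 1)) → ℝ} (hw : Skw w)
    (z : Fin (2 * (n + 1))) (r : Fin (2 * (n + 1))) :
    ∑ σ : Equiv.Perm (Fin (2 * (n + 1))), (if σ r = z then s4F w σ else 0) =
    ∑ σ : Equiv.Perm (Fin (2 * (n + 1))), (if σ (fst 0) = z then s4F w σ else 0) := by
  have hfst : ∀ i : Fin (n + 1),
      ∑ σ : Equiv.Perm (Fin (2 * (n + 1))), (if σ (fst i) = z then s4F w σ else 0) =
      ∑ σ : Equiv.Perm (Fin (2 * (n + 1))), (if σ (fst 0) = z then s4F w σ else 0) := by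
    intro i
    rw [← Equiv.sum_comp (Equiv.mulRight (s4P i))
      (fun σ : Equiv.Perm (Fin (2 * (n + 1))) => if σ (fst 0) = z then s4F w σ else 0)]
    refine Finset.sum_congr rfl fun σ _ => ?_
    simp only [Equiv.coe_mulRight]
    rw [s4F_P, Equiv.Perm.mul_apply, s4P_fst, Equiv.swap_apply_left]
  obtain ⟨i, hi | hi⟩ := exists_fst_or_snd r
  · rw [hi]
    exact hfst i
  · rw [hi, ← hfst i]
    rw [← Equiv.sum_comp (Equiv.mulRight (Equiv.swap (fst i) (snd i)))
      (fun σ : Equiv.Perm (Fin (2 * (n + 1))) => if σ (fst i) = z then s4F w σ else 0)]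
    refine Finset.sum_congr rfl fun σ _ => ?_
    simp only [Equiv.coe_mulRight]
    rw [s4F_Q hw, Equiv.Perm.mul_apply, Equiv.swap_apply_left]

theorem S4_block {n : ℕ} {w : Fin (2 * n + 1 + 1) → Fin (2 * n + 1 + 1) → ℝ} (hw : Skw w)
    (h01 : w 0 1 = 1) (h0 : ∀ j, j ≠ 1 → w 0 j = 0) :
    hpf (n := n + 1) w = 2 * (n + 1) * hpf (n := n) (fun i j => w i.succ.succ j.succ.succ) := by
  have hA : hpf (n := n + 1) w = ∑ r : Fin (2 * (n + 1)), ∑ σ : Equiv.Perm (Fin (2 * (n + 1))),
      (if σ r = (0 : Fin (2 * n + 1 + 1)) then s4F (n := n + 1) w σ else 0) := by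
    rw [Finset.sum_comm]
    show ∑ σ : Equiv.Perm (Fin (2 * (n + 1))), s4F (n := n + 1) w σ = _
    refine Finset.sum_congr rfl fun σ _ => ?_
    rw [Finset.sum_eq_single (σ.symm (0 : Fin (2 * n + 1 + 1)))]
    · rw [if_pos (Equiv.apply_symm_apply σ _)]
    · intro r _ hr
      rw [if_neg]
      intro h
      apply hr
      rw [← h, Equiv.symm_apply_apply]
    · intro h
      exact absurd (Finset.mem_univ _) h
  have hB : ∀ r : Fin (2 * (n + 1)), ∑ σ : Equiv.Perm (Fin (2 * (n + 1))),
      (if σ r = (0 : Fin (2 * n + 1 + 1)) then s4F (n := n + 1) w σ else 0) =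
      ∑ σ : Equiv.Perm (Fin (2 * (n + 1))), (if σ (fst 0) = (0 : Fin (2 * n + 1 + 1)) then s4F (n := n + 1) w σ else 0) :=
    fun r => s4_shift (n := n) hw _ r
  rw [hA, Finset.sum_congr rfl fun r _ => hB r, Finset.sum_const, Finset.card_univ, Fintype.card_fin]
  have hC : ∑ σ : Equiv.Perm (Fin (2 * (n + 1))), (if σ (fst 0) = (0 : Fin (2 * n + 1 + 1)) then s4F (n := n + 1) w σ else 0)
      = hpf (n := n) (fun i j => w i.succ.succ j.succ.succ) := by
    refine (sum_perm_fix01 (n := 2 * n) (fun σ : Equiv.Perm (Fin (2 * n + 1 + 1)) =>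
      if σ (0 : Fin (2 * n + 1 + 1)) = 0 then s4F (n := n + 1) w σ else 0) ?_).trans ?_
    · intro σ hσ
      by_cases h : σ (0 : Fin (2 * n + 1 + 1)) = 0
      · have h1 : σ (1 : Fin (2 * n + 1 + 1)) ≠ 1 := by
          rcases hσ with h' | h'
          · exact absurd h h'
          · exact h'
        simp only [h, if_true]
        have hz : s4F (n := n + 1) w σ = 0 := by
          unfold s4F
          rw [Fin.prod_univ_succ]
          have e0 : w (σ (fst (0 : Fin (n + 1)))) (σ (snd (0 : Fin (n + 1)))) = 0 := by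
            show w (σ (0 : Fin (2 * n + 1 + 1))) (σ (1 : Fin (2 * n + 1 + 1))) = 0
            rw [h]
            exact h0 _ h1
          rw [e0, zero_mul, mul_zero]
        exact hz
      · simp only [h, if_false]
    · unfold hpf
      refine Finset.sum_congr rfl fun e _ => ?_
      simp only [ext2_zero, if_true]
      unfold s4F
      rw [Fin.prod_univ_succ]
      have e0 : w (ext2 e (fst (0 : Fin (n + 1)))) (ext2 e (snd (0 : Fin (n + 1)))) = 1 := by
        show w (ext2 e (0 : Fin (2 * n + 1 + 1))) (ext2 e (1 : Fin (2 * n + 1 + 1))) = 1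
        rw [ext2_zero, ext2_one, h01]
      rw [e0, one_mul]
      have h2 : ∀ i : Fin n, (fst i.succ : Fin (2 * (n + 1))) = (fst i).succ.succ := by
        intro i
        apply Fin.ext
        simp [fst]; ring
      have h3 : ∀ i : Fin n, (snd i.succ : Fin (2 * (n + 1))) = (snd i).succ.succ := by
        intro i
        apply Fin.ext
        simp [snd]; ring
      have e1 : (Equiv.Perm.sign (ext2 e) : ℤˣ) = Equiv.Perm.sign e := ext2_sign e
      congr 1
      · exact congrArg (fun u : ℤˣ => ((u : ℤ) : ℝ)) e1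
  rw [hC, nsmul_eq_mul]
  push_cast
  ring

/-! ### the reduction -/

theorem s4_exists_perm {N : ℕ} {a b : Fin (N + 1 + 1)} (h : a ≠ b) :
    ∃ π : Equiv.Perm (Fin (N + 1 + 1)), π 0 = a ∧ π 1 = b := by
  have h01 : (0 : Fin (N + 1 + 1)) ≠ 1 := zero_ne_one'
  refine ⟨Equiv.swap (Equiv.swap 0 a 1) b * Equiv.swap 0 a, ?_, ?_⟩
  · rw [Equiv.Perm.mul_apply, Equiv.swap_apply_left]
    apply Equiv.swap_apply_of_ne_of_ne
    · intro h'
      have : Equiv.swap 0 a 1 = Equiv.swap 0 a 0 := by rw [← h', Equiv.swap_apply_left]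
      exact h01 ((Equiv.swap 0 a).injective this).symm
    · exact h
  · rw [Equiv.Perm.mul_apply, Equiv.swap_apply_left]

theorem s4_step {n : ℕ} (ih : ∀ w : Fin (2 * n) → Fin (2 * n) → ℝ, Skw w → hpf w = 0 →
      ∃ x y : Fin (2 * n) → ℝ, LinearIndependent ℝ ![x, y] ∧ (∀ z, bil w x z = 0) ∧ ∀ z, bil w y z = 0)
    {w : Fin (2 * n + 1 + 1) → Fin (2 * n + 1 + 1) → ℝ} (hw : Skw w) (h0 : hpf (n := n + 1) w = 0)
    {a b : Fin (2 * n + 1 + 1)} (hne : a ≠ b) (hab : w a b ≠ 0) :
    ∃ x y : Fin (2 * n + 1 + 1) → ℝ, LinearIndependent ℝ ![x, y] ∧ (∀ z, bil w x z = 0) ∧ ∀ z, bil w y z = 0 := by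
  obtain ⟨π, hπ0, hπ1⟩ := s4_exists_perm hne
  set u : Fin (2 * n + 1 + 1) → ℝ := Pi.single a 1 with hu
  set v : Fin (2 * n + 1 + 1) → ℝ := (w a b)⁻¹ • Pi.single b 1 with hv
  have huv : bil w u v = 1 := by
    rw [hu, hv, s4_bil_smul2, s4_bil_single, inv_mul_cancel₀ hab]
  have hvu : bil w v u = -1 := by rw [s4_bil_skew hw, huv]
  have huu : bil w u u = 0 := by
    have := s4_bil_skew hw u u
    linarith
  have hvv : bil w v v = 0 := by
    have := s4_bil_skew hw v v
    linarith
  clear_value u v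
  let rr : Fin (2 * n) → (Fin (2 * n + 1 + 1) → ℝ) := fun k =>
    Pi.single (π k.succ.succ) 1 + (-(bil w u (Pi.single (π k.succ.succ) 1))) • v +
      (bil w v (Pi.single (π k.succ.succ) 1)) • u
  let c : Fin (2 * n + 1 + 1) → (Fin (2 * n + 1 + 1) → ℝ) := Fin.cons u (Fin.cons v rr)
  have c0 : c 0 = u := rfl
  have c1 : c 1 = v := rfl
  have cs : ∀ k : Fin (2 * n), c k.succ.succ = rr k := fun k => rfl
  have hur : ∀ k, bil w u (rr k) = 0 := by
    intro k
    show bil w u (Pi.single (π k.succ.succ) 1 + (-(bil w u (Pi.single (π k.succ.succ) 1))) • v +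
      (bil w v (Pi.single (π k.succ.succ) 1)) • u) = 0
    rw [s4_bil_add2, s4_bil_add2, s4_bil_smul2, s4_bil_smul2, huv, huu]
    ring
  have hvr : ∀ k, bil w v (rr k) = 0 := by
    intro k
    show bil w v (Pi.single (π k.succ.succ) 1 + (-(bil w u (Pi.single (π k.succ.succ) 1))) • v +
      (bil w v (Pi.single (π k.succ.succ) 1)) • u) = 0
    rw [s4_bil_add2, s4_bil_add2, s4_bil_smul2, s4_bil_smul2, hvu, hvv]
    ring
  let g : Matrix (Fin (2 * n + 1 + 1)) (Fin (2 * n + 1 + 1)) ℝ := Matrix.of fun i j => c j i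
  -- linear combinations of the columns
  have hcomb : ∀ t : Fin (2 * n + 1 + 1) → ℝ, g.mulVec t = t 0 • u + t 1 • v + ∑ k : Fin (2 * n), t k.succ.succ • rr k := by
    intro t
    funext i
    show ∑ j, c j i * t j = _
    rw [Fin.sum_univ_succ, Fin.sum_univ_succ]
    simp only [Pi.add_apply, Pi.smul_apply, Finset.sum_apply, smul_eq_mul]
    have e1 : (Fin.succ 0 : Fin (2 * n + 1 + 1)) = 1 := rfl
    rw [e1, c0, c1]
    have e2 : ∑ k : Fin (2 * n), c k.succ.succ i * t k.succ.succ = ∑ k : Fin (2 * n), t k.succ.succ * rr k i :=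
      Finset.sum_congr rfl fun k _ => by rw [cs]; ring
    rw [e2]
    ring
  have hbsum : ∀ (x : Fin (2 * n + 1 + 1) → ℝ) (f : Fin (2 * n) → ℝ) (s : Finset (Fin (2 * n))),
      bil w x (∑ k ∈ s, f k • rr k) = ∑ k ∈ s, f k * bil w x (rr k) := by
    intro x f s
    classical
    induction s using Finset.induction_on with
    | empty =>
      rw [Finset.sum_empty, Finset.sum_empty]
      have := s4_bil_smul2 w 0 x 0
      rw [smul_zero, zero_mul] at this
      exact this
    | insert k s hk hs => rw [Finset.sum_insert hk, Finset.sum_insert hk, s4_bil_add2, s4_bil_smul2, hs]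
  have hbsum1 : ∀ (x : Fin (2 * n + 1 + 1) → ℝ) (f : Fin (2 * n) → ℝ),
      bil w (∑ k, f k • rr k) x = ∑ k, f k * bil w (rr k) x := by
    intro x f
    rw [s4_bil_skew hw, hbsum, ← Finset.sum_neg_distrib]
    refine Finset.sum_congr rfl fun k _ => ?_
    rw [s4_bil_skew hw x (rr k)]
    ring
  have hinj : ∀ t, g.mulVec t = 0 → t = 0 := by
    intro t ht
    rw [hcomb] at ht
    have z0 : ∀ x : Fin (2 * n + 1 + 1) → ℝ, bil w x 0 = 0 := by
      intro x
      have := s4_bil_smul2 w 0 x 0
      rw [smul_zero, zero_mul] at this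
      exact this
    have e1 : t 1 = 0 := by
      have := congrArg (bil w u) ht
      rw [s4_bil_add2, s4_bil_add2, s4_bil_smul2, s4_bil_smul2, hbsum, z0, huu, huv] at this
      have h2 : ∑ k, t k.succ.succ * bil w u (rr k) = 0 := Finset.sum_eq_zero fun k _ => by rw [hur, mul_zero]
      rw [h2] at this
      linarith
    have e0 : t 0 = 0 := by
      have := congrArg (bil w v) ht
      rw [s4_bil_add2, s4_bil_add2, s4_bil_smul2, s4_bil_smul2, hbsum, z0, hvu, hvv] at this
      have h2 : ∑ k, t k.succ.succ * bil w v (rr k) = 0 := Finset.sum_eq_zero fun k _ => by rw [hvr, mul_zero]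
      rw [h2] at this
      linarith
    rw [e0, e1, zero_smul, zero_smul, zero_add, zero_add] at ht
    have ek : ∀ l : Fin (2 * n), t l.succ.succ = 0 := by
      intro l
      have h1 := congrFun ht (π l.succ.succ)
      simp only [Finset.sum_apply, Pi.smul_apply, smul_eq_mul, Pi.zero_apply] at h1
      have hla : π l.succ.succ ≠ a := by
        rw [← hπ0]
        exact fun h => ss_ne_zero l (π.injective h)
      have hlb : π l.succ.succ ≠ b := by
        rw [← hπ1]
        exact fun h => ss_ne_one l (π.injective h)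
      have hval : ∀ k : Fin (2 * n), rr k (π l.succ.succ) = if k = l then 1 else 0 := by
        intro k
        show (Pi.single (π k.succ.succ) 1 + (-(bil w u (Pi.single (π k.succ.succ) 1))) • v +
          (bil w v (Pi.single (π k.succ.succ) 1)) • u : Fin (2 * n + 1 + 1) → ℝ) (π l.succ.succ) = _
        simp only [Pi.add_apply, Pi.smul_apply, smul_eq_mul]
        have q1 : u (π l.succ.succ) = 0 := by rw [hu, Pi.single_eq_of_ne hla]
        have q2 : v (π l.succ.succ) = 0 := by
          rw [hv, Pi.smul_apply, Pi.single_eq_of_ne hlb, smul_zero]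
        rw [q1, q2, mul_zero, mul_zero, add_zero, add_zero]
        by_cases hkl : k = l
        · subst hkl
          rw [Pi.single_eq_same, if_pos rfl]
        · rw [if_neg hkl, Pi.single_eq_of_ne]
          intro h
          apply hkl
          have := π.injective h
          exact (Fin.succ_injective _ (Fin.succ_injective _ this)).symm
      simp only [hval, mul_ite, mul_one, mul_zero, Finset.sum_ite_eq', Finset.mem_univ, if_true] at h1
      exact h1
    funext j
    refine Fin.cases e0 (fun j => ?_) j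
    refine Fin.cases ?_ (fun j => ek j) j
    exact e1
  have hdet : g.det ≠ 0 := by
    intro hd
    obtain ⟨t, ht, ht2⟩ := Matrix.exists_mulVec_eq_zero_iff.mpr hd
    exact ht (hinj t ht2)
  -- the transformed form
  let w2 : Fin (2 * n + 1 + 1) → Fin (2 * n + 1 + 1) → ℝ := fun i j => bil w (c i) (c j)
  have hw2 : Skw w2 := fun i j => s4_bil_skew hw _ _
  have hp2 : hpf (n := n + 1) w2 = 0 := by
    have h1 := S4_mul (n := n + 1) g w
    rw [h0, mul_zero] at h1
    have h2 : (fun i j => ∑ a, ∑ b, g a i * w a b * g b j) = w2 := by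
      funext i j
      exact s4_gform (n := n + 1) g w i j
    rw [← h2]
    exact h1
  have hrow : ∀ j, j ≠ 1 → w2 0 j = 0 := by
    intro j hj
    revert hj
    refine Fin.cases ?_ (fun j => ?_) j
    · intro _
      exact huu
    · refine Fin.cases ?_ (fun j => ?_) j
      · intro h
        exact absurd rfl h
      · intro _
        exact hur j
  have hblock := S4_block (n := n) hw2 huv hrow
  rw [hp2] at hblock
  have h3 : hpf (n := n) (fun i j => w2 i.succ.succ j.succ.succ) = 0 := by
    have hpos : (2 * ((n : ℝ) + 1)) ≠ 0 := by positivity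
    rcases mul_eq_zero.mp hblock.symm with h | h
    · exact absurd h hpos
    · exact h
  obtain ⟨x, y, hxy, hx, hy⟩ := ih _ (fun i j => hw2 _ _) h3
  have hsurj : ∀ z : Fin (2 * n + 1 + 1) → ℝ, ∃ t, g.mulVec t = z := by
    intro z
    refine ⟨g⁻¹.mulVec z, ?_⟩
    rw [Matrix.mulVec_mulVec, Matrix.mul_nonsing_inv _ (Ne.isUnit hdet), Matrix.one_mulVec]
  have hker : ∀ x : Fin (2 * n) → ℝ, (∀ z, bil (fun i j => w2 i.succ.succ j.succ.succ) x z = 0) →
      ∀ z, bil w (∑ k, x k • rr k) z = 0 := by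
    intro x hx z
    obtain ⟨t, rfl⟩ := hsurj z
    rw [hcomb, s4_bil_add2, s4_bil_add2, s4_bil_smul2, s4_bil_smul2, hbsum]
    have q1 : bil w (∑ k, x k • rr k) u = 0 := by
      rw [hbsum1]
      refine Finset.sum_eq_zero fun k _ => ?_
      rw [s4_bil_skew hw, hur, neg_zero, mul_zero]
    have q2 : bil w (∑ k, x k • rr k) v = 0 := by
      rw [hbsum1]
      refine Finset.sum_eq_zero fun k _ => ?_
      rw [s4_bil_skew hw, hvr, neg_zero, mul_zero]
    rw [q1, q2, mul_zero, mul_zero, zero_add, zero_add]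
    have h4 := hx (fun k => t k.succ.succ)
    unfold bil at h4
    rw [Finset.sum_comm] at h4
    rw [← h4]
    refine Finset.sum_congr rfl fun j _ => ?_
    rw [hbsum1, Finset.mul_sum]
    refine Finset.sum_congr rfl fun i _ => ?_
    show t j.succ.succ * (x i * bil w (rr i) (rr j)) = bil w (rr i) (rr j) * x i * t j.succ.succ
    ring
  have hext : ∀ x : Fin (2 * n) → ℝ, ∑ k, x k • rr k = g.mulVec (Fin.cons 0 (Fin.cons 0 x)) := by
    intro x
    rw [hcomb]
    have q0 : (Fin.cons 0 (Fin.cons 0 x : Fin (2 * n + 1) → ℝ) : Fin (2 * n + 1 + 1) → ℝ) 0 = 0 := rfl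
    have q1 : (Fin.cons 0 (Fin.cons 0 x : Fin (2 * n + 1) → ℝ) : Fin (2 * n + 1 + 1) → ℝ) 1 = 0 := rfl
    have q2 : ∀ k : Fin (2 * n), (Fin.cons 0 (Fin.cons 0 x : Fin (2 * n + 1) → ℝ) : Fin (2 * n + 1 + 1) → ℝ) k.succ.succ = x k :=
      fun k => rfl
    rw [q0, q1, zero_smul, zero_smul, zero_add, zero_add]
    refine Finset.sum_congr rfl fun k _ => ?_
    rw [q2]
  refine ⟨∑ k, x k • rr k, ∑ k, y k • rr k, ?_, hker x hx, hker y hy⟩
  rw [LinearIndependent.pair_iff]
  intro s t hst
  rw [LinearIndependent.pair_iff] at hxy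
  apply hxy s t
  have h5 : ∑ k, (s • x + t • y) k • rr k = 0 := by
    rw [← hst, Finset.smul_sum, Finset.smul_sum, ← Finset.sum_add_distrib]
    refine Finset.sum_congr rfl fun k _ => ?_
    rw [smul_smul, smul_smul, ← add_smul]
    rfl
  rw [hext] at h5
  have h6 := hinj _ h5
  funext k
  exact congrFun h6 k.succ.succ

theorem S4 {n : ℕ} (hn : 1 ≤ n) {w : Fin (2 * n) → Fin (2 * n) → ℝ} (hw : Skw w) (h0 : hpf w = 0) :
    ∃ x y : Fin (2 * n) → ℝ, LinearIndependent ℝ ![x, y] ∧ (∀ z, bil w x z = 0) ∧ ∀ z, bil w y z = 0 := by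
  clear hn
  induction n with
  | zero =>
    exfalso
    have h1 : hpf w = 1 := by
      unfold hpf
      simp
    rw [h1] at h0
    exact one_ne_zero h0
  | succ n ih =>
    by_cases hz : ∀ i j, w i j = 0
    · refine ⟨Pi.single (0 : Fin (2 * n + 1 + 1)) 1, Pi.single (1 : Fin (2 * n + 1 + 1)) 1, ?_, ?_, ?_⟩
      · rw [LinearIndependent.pair_iff]
        intro s t h
        have e0 := congrFun h (0 : Fin (2 * n + 1 + 1))
        have e1 := congrFun h (1 : Fin (2 * n + 1 + 1))
        have hne : (0 : Fin (2 * n + 1 + 1)) ≠ 1 := zero_ne_one'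
        constructor
        · simpa [Pi.single_apply, hne] using e0
        · simpa [Pi.single_apply, hne.symm] using e1
      · intro z
        unfold bil
        refine Finset.sum_eq_zero fun i _ => Finset.sum_eq_zero fun j _ => ?_
        rw [hz i j]
        ring
      · intro z
        unfold bil
        refine Finset.sum_eq_zero fun i _ => Finset.sum_eq_zero fun j _ => ?_
        rw [hz i j]
        ring
    · push Not at hz
      obtain ⟨a, b, hab⟩ := hz
      have hne : a ≠ b := by
        rintro rfl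
        have := hw a a
        exact hab (by linarith)
      exact s4_step (fun w' hw' h' => ih hw' h') hw h0 hne hab

end H56F
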