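import Pool.Agent.Lib.H56F.S3
import Pool.Agent.Lib.H56F.S5

/-!
# S6 (S/M): strict positivity

`n = 0`: `gaussBonnet 0 Y = 1` (or compute). `n ≥ 1`: `S2`, `S2_skw`: `Y = ∑ r, sq2 (w r)`. If `hpf (∑ c r w r) = 0` for all `c`: `S5` gives `x`, `y` with `ev Y x y x y = ∑ r (bil (w r) x y) ^ 2 = 0`, contradiction. So `hpf (∑ c r w r) ≠ 0` for some `c`, after scaling
(`hpf` is homogeneous of degree `n`; or use `c / (1 + ∑ c ^ 2)`) `∑ c r ^ 2 ≤ 1`: Cauchy-Schwarz gives the hypothesis of `S3`.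
-/

set_option autoImplicit false

open Finset

namespace H56F

open Pool.Agent.H69Hopf
open H56E

theorem S6_hpf {n : ℕ} (a : ℝ) (w : Fin (2 * n) → Fin (2 * n) → ℝ) :
    hpf (fun i j => a * w i j) = a ^ n * hpf w := by
  unfold hpf
  rw [Finset.mul_sum]
  refine Finset.sum_congr rfl fun σ _ => ?_
  rw [Finset.prod_mul_distrib, Finset.prod_const, Finset.card_univ, Fintype.card_fin]
  ring

theorem S6_quad {N : ℕ} {Y : Arr N} {ι : Type} [Fintype ι] {w : ι → Fin N → Fin N → ℝ}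
    (hw : ∀ i j p q, Y i j p q = ∑ r, w r i j * w r p q) (W : Fin N → Fin N → ℝ) :
    ∑ i, ∑ j, ∑ p, ∑ q, Y i j p q * (W i j * W p q) = ∑ r, (∑ i, ∑ j, w r i j * W i j) ^ 2 := by
  have h1 : ∀ r, (∑ i, ∑ j, w r i j * W i j) ^ 2 =
      ∑ i, ∑ j, ∑ p, ∑ q, (w r i j * W i j) * (w r p q * W p q) := by
    intro r
    rw [sq, Finset.sum_mul]
    refine Finset.sum_congr rfl fun i _ => ?_
    rw [Finset.sum_mul]
    refine Finset.sum_congr rfl fun j _ => ?_
    rw [Finset.mul_sum]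
    refine Finset.sum_congr rfl fun p _ => ?_
    rw [Finset.mul_sum]
  rw [Finset.sum_congr rfl fun r _ => h1 r]
  symm
  rw [Finset.sum_comm]
  refine Finset.sum_congr rfl fun i _ => ?_
  rw [Finset.sum_comm]
  refine Finset.sum_congr rfl fun j _ => ?_
  rw [Finset.sum_comm]
  refine Finset.sum_congr rfl fun p _ => ?_
  rw [Finset.sum_comm]
  refine Finset.sum_congr rfl fun q _ => ?_
  rw [hw, Finset.sum_mul]
  refine Finset.sum_congr rfl fun r _ => ?_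
  ring

theorem S6_ev {N : ℕ} {Y : Arr N} {ι : Type} [Fintype ι] {w : ι → Fin N → Fin N → ℝ}
    (hw : ∀ i j p q, Y i j p q = ∑ r, w r i j * w r p q) (x y : Fin N → ℝ)
    (h0 : ∀ r, bil (w r) x y = 0) : ev Y x y x y = 0 := by
  have h1 : ev Y x y x y = ∑ i, ∑ j, ∑ p, ∑ q, Y i j p q * ((x i * y j) * (x p * y q)) := by
    unfold ev
    refine Finset.sum_congr rfl fun i _ => Finset.sum_congr rfl fun j _ =>
      Finset.sum_congr rfl fun p _ => Finset.sum_congr rfl fun q _ => ?_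
    ring
  have h2 := S6_quad hw (fun i j => x i * y j)
  rw [h1]
  refine (show _ = _ from h2).trans ?_
  refine Finset.sum_eq_zero fun r _ => ?_
  have h3 : ∑ i, ∑ j, w r i j * (x i * y j) = bil (w r) x y := by
    unfold bil
    refine Finset.sum_congr rfl fun i _ => Finset.sum_congr rfl fun j _ => ?_
    ring
  rw [h3, h0 r]
  ring

theorem S6_zero (Y : Arr (2 * 0)) : 0 < gaussBonnet 0 Y := by
  have h1 : gaussBonnet 0 Y = 1 := by
    unfold gaussBonnet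
    simp
  rw [h1]
  exact one_pos

theorem S6 {n : ℕ} {Y : Arr (2 * n)} (hY : IsAlgCurv Y) (hP : PsdOp Y) (hS : ∀ v w : Fin (2 * n) → ℝ, LinearIndependent ℝ ![v, w] → 0 < ev Y v w v w) :
    0 < gaussBonnet n Y := by
  rcases Nat.eq_zero_or_pos n with h0 | hn
  · subst h0
    exact S6_zero Y
  obtain ⟨w, hw⟩ := S2 hY.pair hP
  have hsk := S2_skw hY hw
  obtain ⟨c, hc⟩ : ∃ c : Fin (2 * n) × Fin (2 * n) → ℝ, hpf (fun i j => ∑ r, c r * w r i j) ≠ 0 := by
    by_contra hcon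
    push Not at hcon
    obtain ⟨x, y, hxy, hb⟩ := S5 hn hsk hcon
    have h1 := hS x y hxy
    rw [S6_ev hw x y hb] at h1
    exact lt_irrefl _ h1
  have hsum0 : 0 ≤ ∑ r, c r ^ 2 := Finset.sum_nonneg fun r _ => sq_nonneg _
  obtain ⟨s, hs⟩ : ∃ s : ℝ, s = 1 + ∑ r, c r ^ 2 := ⟨_, rfl⟩
  have hs1 : 1 ≤ s := by linarith
  have hs0 : 0 < s := by linarith
  obtain ⟨w0, hw0⟩ : ∃ w0 : Fin (2 * n) → Fin (2 * n) → ℝ,
      w0 = fun i j => s⁻¹ * (∑ r, c r * w r i j) := ⟨_, rfl⟩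
  have hne : hpf w0 ≠ 0 := by
    rw [hw0, S6_hpf]
    exact mul_ne_zero (pow_ne_zero _ (inv_ne_zero hs0.ne')) hc
  have hle : hpf w0 ^ 2 ≤ gaussBonnet n Y := by
    apply S3 hY
    intro W
    rw [S6_quad hw W]
    have h1 : ∑ i, ∑ j, w0 i j * W i j = ∑ r, (s⁻¹ * c r) * (∑ i, ∑ j, w r i j * W i j) := by
      rw [hw0]
      symm
      rw [Finset.sum_congr rfl fun r _ => Finset.mul_sum _ _ _]
      rw [Finset.sum_comm]
      refine Finset.sum_congr rfl fun i _ => ?_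
      rw [Finset.sum_congr rfl fun r _ => Finset.mul_sum _ _ _]
      rw [Finset.sum_comm]
      refine Finset.sum_congr rfl fun j _ => ?_
      show ∑ r, s⁻¹ * c r * (w r i j * W i j) = (s⁻¹ * ∑ r, c r * w r i j) * W i j
      rw [Finset.mul_sum, Finset.sum_mul]
      refine Finset.sum_congr rfl fun r _ => ?_
      ring
    rw [h1]
    have h2 := Finset.sum_mul_sq_le_sq_mul_sq Finset.univ (fun r => s⁻¹ * c r)
      (fun r => ∑ i, ∑ j, w r i j * W i j)
    refine h2.trans ?_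
    have h3 : ∑ r, (s⁻¹ * c r) ^ 2 ≤ 1 := by
      have h4 : ∑ r, (s⁻¹ * c r) ^ 2 = (s⁻¹) ^ 2 * ∑ r, c r ^ 2 := by
        rw [Finset.mul_sum]
        refine Finset.sum_congr rfl fun r _ => ?_
        ring
      rw [h4, inv_pow, inv_mul_le_iff₀ (by positivity)]
      nlinarith
    have h5 : 0 ≤ ∑ r, (∑ i, ∑ j, w r i j * W i j) ^ 2 := Finset.sum_nonneg fun r _ => sq_nonneg _
    calc (∑ r, (s⁻¹ * c r) ^ 2) * ∑ r, (∑ i, ∑ j, w r i j * W i j) ^ 2
        ≤ 1 * ∑ r, (∑ i, ∑ j, w r i j * W i j) ^ 2 := mul_le_mul_of_nonneg_right h3 h5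
      _ = ∑ r, (∑ i, ∑ j, w r i j * W i j) ^ 2 := one_mul _
  exact lt_of_lt_of_le (by positivity) hle

end H56F
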