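import Pool.Agent.Lib.H56E.Defs

/-!
# H56F: curvature tensors of cluster type (final form)

Definitions used in the final statement (and `H56E.cln`, `H56E.AdmIn` in `Lib/H56E/Defs.lean`).
-/

set_option autoImplicit false

open scoped ContDiff Manifold
open Set

namespace H56F

open H31R H79G H30K H56C H56E
open Pool.Agent.H69Hopf (Arr)

/-- The curvature operator is nonpositive on the cluster `a`: `R(W, W) ≤ 0` for all two-vectors `W` of the cluster. -/
def OpIn {N : ℕ} (R : Arr N) (t : Fin N → ℕ) (a : ℕ) : Prop :=
  ∀ W : Fin N → Fin N → ℝ, (∀ i j, W i j ≠ 0 → t i = a ∧ t j = a) → ∑ i, ∑ j, ∑ p, ∑ q, R i j p q * (W i j * W p q) ≤ 0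

/-- **Curvature tensors of cluster type.** `s i`, `t i` = the class and the cluster of the index `i` (of an orthonormal basis), the clusters are unions of classes. (a) `R i j k l` is nonzero only if the classes of `i`, `j` are those of
`k`, `l` in some order (the curvature operator preserves the spaces `V_α ∧ V_β`, where `V_α` is the space of the class `α`); (b) for `i`, `k` in the class `α` and `j`, `l` in the class `β` of another cluster
`R i j k l = δ_ik P_α(j, l) + δ_jl P_β(i, k)` (no condition if one of the two classes has only one index); (c) every cluster is admissible, or the curvature operator is nonpositive on it. -/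
def Clus {N : ℕ} (R : Arr N) : Prop :=
  ∃ (s t : Fin N → ℕ) (P : ℕ → Fin N → Fin N → ℝ), (∀ i j, s i = s j → t i = t j) ∧
    (∀ i j k l, R i j k l ≠ 0 → (s i = s k ∧ s j = s l) ∨ (s i = s l ∧ s j = s k)) ∧
    (∀ i j k l, t i ≠ t j → s i = s k → s j = s l → R i j k l = (if i = k then P (s i) j l else 0) + (if j = l then P (s j) i k else 0)) ∧
    ∀ a, AdmIn s t a ∨ OpIn R t a

variable {d : ℕ}

/-- The curvature tensor `R` is of cluster type with respect to some basis (the columns of `E`) which is orthonormal for `G`. -/
def ClusAt (G : Matrix (Fin d) (Fin d) ℝ) (R : Fin d → Fin d → Fin d → Fin d → ℝ) : Prop :=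
  ∃ E : Matrix (Fin d) (Fin d) ℝ, E.transpose * G * E = 1 ∧
    Clus (N := d) fun i j p q => ∑ a, ∑ b, ∑ c, ∑ e, R a b c e * E a i * E b j * E c p * E e q

variable {M : Type} [TopologicalSpace M] [ChartedSpace (EE d) M]

/-- Every nonempty open set of `M` contains a nonempty open set `U` such that (1) at some point of `U` the curvature tensor is of cluster type, or there is a Codazzi tensor on `U` which has (2) admissible
multiplicities at some point of `U`, or (3) exactly two eigenvalues, both of multiplicity at most `5`, at every point of `U`. (In the charts `chartAt p`.) -/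
def DenseClus (g : Ch.Metric d M) : Prop :=
  ∀ p : M, ∀ V : Set (EE d), V ⊆ (chartAt (EE d) p).target → IsOpen V → V.Nonempty → ∃ U : Set (EE d), U ⊆ V ∧ IsOpen U ∧ U.Nonempty ∧
    ((∃ y ∈ U, ClusAt (g.mat p y) (riem (g.mat p) y)) ∨
      ∃ b : EE d → Matrix (Fin d) (Fin d) ℝ, IsCodazzi (g.mat p) U b ∧ ((∃ y ∈ U, H56D.AdmAt (g.mat p y) (b y)) ∨ ∀ y ∈ U, TwoAt (g.mat p y) (b y)))

end H56F
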